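import Pool.Agent.H565R2.FO2.Myc

set_option autoImplicit false

/-!
A perfect set theorem for relations controlled by countably many Borel local invariants.
-/

namespace Pool.Agent.H565R2.FO2

open Set TopologicalSpace Filter Topology MeasureTheory

theorem perfect_aux {Y Z ι : Type*} [TopologicalSpace Y] [PolishSpace Y]
    [TopologicalSpace Z] [T2Space Z] [Countable ι]
    (J : ι → Y → Z) (hJ : ∀ i, Continuous (J i)) (E : Y → Y → Prop)
    (hE : ∀ y y', E y y' → ∀ i, ∃ j, J i y = J j y') (i0 : ι)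
    (hunc : ¬ (Set.range (J i0)).Countable) :
    ∃ h : (ℕ → Bool) → Y, Continuous h ∧ ∀ x x', x ≠ x' → ¬ E (h x) (h x') := by
  classical
  let B := countableBasis Y
  let V : Set Y := ⋃₀ {U ∈ B | (J i0 '' U).Countable}
  have hVo : IsOpen V := isOpen_sUnion fun U hU => isOpen_of_mem_countableBasis hU.1
  have hVc : (J i0 '' V).Countable := by
    have : J i0 '' V = ⋃ U ∈ {U ∈ B | (J i0 '' U).Countable}, J i0 '' U := by
      rw [image_sUnion]; ext z; simp
    rw [this]
    exact ((countable_countableBasis Y).mono (fun U hU => hU.1)).biUnion fun U hU => hU.2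
  have hCne : (Vᶜ).Nonempty := by
    by_contra hc
    rw [not_nonempty_iff_eq_empty, compl_empty_iff] at hc
    apply hunc
    rw [← image_univ, ← hc]; exact hVc
  have hCcl : IsClosed (Vᶜ) := hVo.isClosed_compl
  have : Nonempty (Vᶜ : Set Y) := hCne.to_subtype
  have : PolishSpace (Vᶜ : Set Y) := hCcl.polishSpace
  have : Nonempty ι := ⟨i0⟩
  obtain ⟨e, he⟩ := exists_surjective_nat ι
  let W : ℕ → Set ((Vᶜ : Set Y) × (Vᶜ : Set Y)) := fun n => {p | J i0 p.1 ≠ J (e n) p.2}
  have hWo : ∀ n, IsOpen (W n) := by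
    intro n
    exact isOpen_ne_fun ((hJ i0).comp (continuous_subtype_val.comp continuous_fst))
      ((hJ (e n)).comp (continuous_subtype_val.comp continuous_snd))
  have hWd : ∀ n, Dense (W n) := by
    intro n p
    rw [mem_closure_iff_nhds]
    intro N hN
    rw [nhds_prod_eq, mem_prod_iff] at hN
    obtain ⟨U1, hU1, U2, hU2, hUN⟩ := hN
    rw [nhds_subtype_eq_comap, mem_comap] at hU1
    obtain ⟨U, hU, hUs⟩ := hU1
    obtain ⟨U', hU'B, hpU', hU'U⟩ := (isBasis_countableBasis Y).mem_nhds_iff.1 hU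
    have hnc : ¬ (J i0 '' U').Countable := by
      intro hc
      exact p.1.2 ⟨U', ⟨hU'B, hc⟩, hpU'⟩
    have hex : ∃ y ∈ U', y ∉ V ∧ J i0 y ≠ J (e n) p.2 := by
      by_contra hc
      push Not at hc
      apply hnc
      apply (hVc.union (countable_singleton (J (e n) p.2))).mono
      rintro _ ⟨y, hy, rfl⟩
      by_cases hyV : y ∈ V
      · exact Or.inl ⟨y, hyV, rfl⟩
      · exact Or.inr (hc y hy hyV)
    obtain ⟨y, hy, hyV, hne⟩ := hex
    refine ⟨(⟨y, hyV⟩, p.2), ?_, hne⟩
    exact hUN ⟨hUs (hU'U hy), mem_of_mem_nhds hU2⟩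
  obtain ⟨h, hhc, hh⟩ := mycielski' W hWo hWd
  refine ⟨fun x => (h x : Y), continuous_subtype_val.comp hhc, fun x x' hx hEx => ?_⟩
  obtain ⟨j, hj⟩ := hE _ _ hEx i0
  obtain ⟨n, rfl⟩ := he j
  exact hh x x' hx n hj

theorem perfect_of_uncountable {Y X Z ι : Type*} [MeasurableSpace Y] [StandardBorelSpace Y]
    [TopologicalSpace X] [SecondCountableTopology X] [MeasurableSpace X] [BorelSpace X]
    (incl : Y → X) (hincl : Measurable incl)
    [TopologicalSpace Z] [T2Space Z] [SecondCountableTopology Z] [MeasurableSpace Z] [BorelSpace Z]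
    [Countable ι] (J : ι → Y → Z) (hJ : ∀ i, Measurable (J i)) (E : Y → Y → Prop)
    (hE : ∀ y y', E y y' → ∀ i, ∃ j, J i y = J j y')
    (hunc : ¬ (⋃ i, Set.range (J i)).Countable) :
    ∃ h : (ℕ → Bool) → Y, Continuous (incl ∘ h) ∧ ∀ x x', x ≠ x' → ¬ E (h x) (h x') := by
  have h0 : ∃ i0, ¬ (Set.range (J i0)).Countable := by
    by_contra hc
    push Not at hc
    exact hunc (countable_iUnion hc)
  obtain ⟨i0, hi0⟩ := h0
  let := upgradeStandardBorel Y
  let F : Y → X × (ι → Z) := fun y => (incl y, fun i => J i y)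
  have hF : Measurable F := hincl.prodMk (measurable_pi_lambda _ fun i => hJ i)
  obtain ⟨t', ht', hFc, hP⟩ := hF.exists_continuous
  letI := t'
  have hincl' : @Continuous _ _ t' _ incl := continuous_fst.comp hFc
  have hJ' : ∀ i, @Continuous _ _ t' _ (J i) := fun i =>
    (continuous_apply i).comp (continuous_snd.comp hFc)
  obtain ⟨h, hh1, hh2⟩ := @perfect_aux Y Z ι t' hP _ _ _ J hJ' E hE i0 hi0
  exact ⟨h, hincl'.comp hh1, hh2⟩

end Pool.Agent.H565R2.FO2
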