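import Pool.Agent.H565R2.FO2.Syn

set_option autoImplicit false

/-!
Interpretations built from coherent pair data.
-/

namespace Pool.Agent.H565R2.FO2

open FirstOrder Set

variable {L : FirstOrder.Language.{0, 0}}

/-- The interpretation given by pair data. -/
def mkI {W : Type} (δ : W → W → Dat L) : Interp L W :=
  fun n R t => ∃ u w v, t = (fun k => pick u w (v k)) ∧ (δ u w).a n R v

structure Coh {W : Type} (δ : W → W → Dat L) : Prop where
  map : ∀ u w (σ : Bool → Bool), δ (pick u w (σ false)) (pick u w (σ true)) = (δ u w).map σ
  e : ∀ u w, (δ u w).e ↔ u = w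

theorem bool_fun_cases (σ : Bool → Bool) :
    σ = (fun _ => false) ∨ σ = (fun _ => true) ∨ σ = id ∨ σ = not := by
  cases h1 : σ false <;> cases h2 : σ true
  · left; funext b; cases b <;> simp [h1, h2]
  · right; right; left; funext b; cases b <;> simp [h1, h2]
  · right; right; right; funext b; cases b <;> simp [h1, h2]
  · right; left; funext b; cases b <;> simp [h1, h2]

theorem Coh.diag {W : Type} {δ : W → W → Dat L} (h : Coh δ) (u w : W) (b : Bool) :
    δ (pick u w b) (pick u w b) = (δ u w).map (fun _ => b) := h.map u w (fun _ => b)

theorem Coh.same {W : Type} {δ : W → W → Dat L} (h : Coh δ) (u w : W) {n : ℕ}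
    (R : L.Relations n) (v1 v2 : Fin n → Bool)
    (hv : (fun k => pick u w (v1 k)) = (fun k => pick u w (v2 k))) :
    (δ u w).a n R v1 ↔ (δ u w).a n R v2 := by
  by_cases huw : u = w
  · subst huw
    have h1 := h.diag u u false
    rw [pick_self] at h1
    have h2 : ∀ v, (δ u u).a n R v ↔ (δ u u).a n R (fun _ => false) := by
      intro v
      conv_lhs => rw [h1]
      rfl
    rw [h2 v1, h2 v2]
  · have : v1 = v2 := by
      funext k
      have := congrFun hv k
      revert this
      cases v1 k <;> cases v2 k <;> simp [huw, Ne.symm huw, eq_comm]
    rw [this]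

theorem mkI_iff {W : Type} {δ : W → W → Dat L} (h : Coh δ) {n : ℕ} (R : L.Relations n) (u w : W)
    (v : Fin n → Bool) : mkI δ n R (fun k => pick u w (v k)) ↔ (δ u w).a n R v := by
  constructor
  · rintro ⟨u', w', v', ht, hv'⟩
    by_cases hc : (∃ k, v' k = false) ∧ (∃ k, v' k = true)
    · obtain ⟨⟨k, hk⟩, ⟨k', hk'⟩⟩ := hc
      have h1 : u' = pick u w (v k) := by
        have := congrFun ht k
        simp only [hk, pick_false] at this
        exact this.symm
      have h2 : w' = pick u w (v k') := by
        have := congrFun ht k'
        simp only [hk', pick_true] at this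
        exact this.symm
      let σ : Bool → Bool := fun b => cond b (v k') (v k)
      have hσ : δ u' w' = (δ u w).map σ := by
        rw [h1, h2]; exact h.map u w σ
      rw [hσ] at hv'
      have hv2 : (δ u w).a n R (fun k => σ (v' k)) := hv'
      refine (h.same u w R _ _ ?_).1 hv2
      rw [ht]
      funext j
      rw [← pick_pick]
      have e1 : pick u w (σ false) = u' := h1.symm
      have e2 : pick u w (σ true) = w' := h2.symm
      rw [e1, e2]
    · -- v' is constant
      have hcst : ∃ β : Bool, v' = fun _ => β := by
        by_cases h1 : ∃ k, v' k = false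
        · refine ⟨false, ?_⟩
          funext k
          by_contra hk
          exact hc ⟨h1, k, by simpa using hk⟩
        · refine ⟨true, ?_⟩
          funext k
          by_contra hk
          exact h1 ⟨k, by simpa using hk⟩
      obtain ⟨β, rfl⟩ := hcst
      have h1 : ∀ v'', (δ (pick u' w' β) (pick u' w' β)).a n R v'' := by
        intro v''
        rw [h.diag]
        exact hv'
      rcases Nat.eq_zero_or_pos n with hn | hn
      · subst hn
        have h2 : ∀ x y : W, ∀ b c : Bool, ∀ v1 v2, (δ (pick x y b) (pick x y b)).a 0 R v1 ↔
            (δ (pick x y c) (pick x y c)).a 0 R v2 := by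
          intro x y b c v1 v2
          rw [h.diag, h.diag]
          have : (fun k => (fun _ => b) (v1 k) : Fin 0 → Bool) =
              (fun k => (fun _ => c) (v2 k) : Fin 0 → Bool) := Subsingleton.elim _ _
          change (δ x y).a 0 R (fun k => (fun _ => b) (v1 k)) ↔
            (δ x y).a 0 R (fun k => (fun _ => c) (v2 k))
          rw [this]
        have h3 : (δ u u).a 0 R v := by
          have := (h2 u (pick u' w' β) false true v v)
          simp only [pick_false, pick_true] at this
          exact this.2 (h1 v)
        have h4 := h.diag u w false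
        rw [pick_false] at h4
        rw [h4] at h3
        have : v = fun k => (fun _ => false) (v k) := Subsingleton.elim _ _
        rw [this]; exact h3
      · let k0 : Fin n := ⟨0, hn⟩
        have h2 : pick u' w' β = pick u w (v k0) := (congrFun ht k0).symm
        have h3 := h1 v
        rw [h2, h.diag] at h3
        have h4 : (δ u w).a n R (fun _ => v k0) := h3
        refine (h.same u w R _ _ ?_).1 h4
        rw [ht]
        funext j
        exact h2.symm
  · intro hv
    exact ⟨u, w, v, rfl, hv⟩

theorem mkd_mkI {W : Type} {δ : W → W → Dat L} (h : Coh δ) (u w : W) :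
    mkd (mkI δ) (fun u => (δ u u).l false) u w = δ u w := by
  apply Dat.ext'
  · exact (h.e u w).symm
  · intro n R v
    exact mkI_iff h R u w v
  · intro b c ψ
    simp only [mkd]
    rw [h.diag]
    rfl

/-- Symmetric extension of data given on increasing pairs. -/
def sym (D : ℕ → Dat L) (h : ℕ → ℕ → Dat L) (u w : ℕ) : Dat L :=
  if u = w then D u else if u < w then h u w else (h w u).map not

theorem map_not_not (d : Dat L) : (d.map not).map not = d := by
  rw [Dat.map_map]
  have : (not ∘ not : Bool → Bool) = id := by funext b; simp
  rw [this, Dat.map_id]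

theorem sym_coh (D : ℕ → Dat L) (h : ℕ → ℕ → Dat L)
    (hD : ∀ u σ, (D u).map σ = D u) (hDe : ∀ u, (D u).e)
    (h0 : ∀ u w, u < w → (h u w).map (fun _ => false) = D u)
    (h1 : ∀ u w, u < w → (h u w).map (fun _ => true) = D w)
    (he : ∀ u w, u < w → ¬ (h u w).e) : Coh (sym D h) := by
  have e1 : ∀ u w, (sym D h u w).map (fun _ => false) = D u := by
    intro u w
    unfold sym
    split_ifs with h2 h3
    · exact hD u _
    · exact h0 u w h3
    · rw [Dat.map_map]
      exact h1 w u (by omega)
  have e2 : ∀ u w, (sym D h u w).map (fun _ => true) = D w := by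
    intro u w
    unfold sym
    split_ifs with h2 h3
    · subst h2; exact hD u _
    · exact h1 u w h3
    · rw [Dat.map_map]
      exact h0 w u (by omega)
  have e3 : ∀ u w, sym D h w u = (sym D h u w).map not := by
    intro u w
    rcases lt_trichotomy u w with h2 | h2 | h2
    · have a1 : w ≠ u := by omega
      have a2 : ¬ w < u := by omega
      have a3 : u ≠ w := by omega
      simp only [sym, a1, a2, a3, h2, if_true, if_false]
    · subst h2
      simp only [sym, if_true, hD]
    · have a1 : w ≠ u := by omega
      have a2 : ¬ u < w := by omega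
      have a3 : u ≠ w := by omega
      simp only [sym, a1, a2, a3, h2, if_true, if_false, map_not_not]
  refine ⟨?_, ?_⟩
  · intro u w σ
    rcases bool_fun_cases σ with h2 | h2 | h2 | h2
    · subst h2
      simp only [pick_false, e1]
      simp [sym]
    · subst h2
      simp only [pick_true, e2]
      simp [sym]
    · subst h2
      simp only [id, pick_false, pick_true]
      exact (Dat.map_id _).symm
    · subst h2
      simp only [Bool.not_false, Bool.not_true, pick_false, pick_true]
      exact e3 u w
  · intro u w
    unfold sym
    split_ifs with h2 h3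
    · simp [h2, hDe]
    · simp [h2, he u w h3]
    · have : ¬ ((h w u).map not).e := by
        simp only [Dat.map]
        simp [he w u (by omega)]
      simp [h2, this]

end Pool.Agent.H565R2.FO2
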