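import Pool.Agent.H565R2.FO2.Per

set_option autoImplicit false

/-!
Binary languages: the classification of models when no coding configuration exists.
-/

namespace Pool.Agent.H565R2.FO2

open FirstOrder Set Topology MeasureTheory

variable {L : FirstOrder.Language.{0, 0}}

theorem meas_Rl (φ : F2 L) (x y : ℕ) : Measurable (fun c : Code L => Rl (toI c) φ x y) := by
  induction φ generalizing x y with
  | eq i j => exact measurable_const
  | rel R v => exact meas_toI R _
  | neg φ ih => exact (ih x y).not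
  | inf f ih => exact Measurable.forall fun n => ih n x y
  | ex b φ ih =>
    cases b
    · exact Measurable.exists fun z => ih z y
    · exact Measurable.exists fun z => ih x z

theorem meas_Md (Φ : F2 L) : MeasurableSet {c : Code L | toI c ∈ Md Φ} := by
  apply measurableSet_setOfPred.2
  exact Measurable.forall fun x => Measurable.forall fun y => meas_Rl Φ x y

/-- The space of codes of models. -/
abbrev YM (Φ : F2 L) : Type := {c : Code L // toI c ∈ Md Φ}

instance ym_sb [∀ n, Countable (L.Relations n)] (Φ : F2 L) : StandardBorelSpace (YM Φ) :=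
  (meas_Md Φ).standardBorel

/-- Index set for the codes of data. -/
abbrev KI (Φ : F2 L) : Type :=
  Unit ⊕ (Σ n, L.Relations n × (Fin n → Bool)) ⊕ (Bool × Bool × ↥(subs Φ))

instance ki_ct [∀ n, Countable (L.Relations n)] (Φ : F2 L) : Countable (KI Φ) := by
  have := (subs_countable Φ).to_subtype
  infer_instance

open Classical in
noncomputable def code (Φ : F2 L) (d : Dat L) : KI Φ → Bool
  | .inl _ => decide d.e
  | .inr (.inl ⟨n, R, v⟩) => decide (d.a n R v)
  | .inr (.inr ⟨b, c, ψ⟩) => decide (d.l b c ψ)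

theorem al_l {Φ : F2 L} {d : Dat L} (hd : d ∈ Al Φ) {b c : Bool} {ψ : F2 L} (h : d.l b c ψ) :
    ψ ∈ subs Φ := by
  obtain ⟨I, -, x, y, rfl⟩ := hd
  exact h.1

theorem code_inj {Φ : F2 L} {d d' : Dat L} (hd : d ∈ Al Φ) (hd' : d' ∈ Al Φ)
    (h : code Φ d = code Φ d') : d = d' := by
  apply Dat.ext'
  · have := congrFun h (.inl ())
    simpa [code] using this
  · intro n R v
    have := congrFun h (.inr (.inl ⟨n, R, v⟩))
    simpa [code] using this
  · intro b c ψ
    by_cases hψ : ψ ∈ subs Φ
    · have := congrFun h (.inr (.inr ⟨b, c, ⟨ψ, hψ⟩⟩))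
      simpa [code] using this
    · exact ⟨fun h1 => absurd (al_l hd h1) hψ, fun h1 => absurd (al_l hd' h1) hψ⟩

theorem meas_lab (J : Set (F2 L)) (x : ℕ) (c : Bool) (ψ : F2 L) :
    Measurable (fun k : Code L => lab (toI k) J x c ψ) := by
  unfold lab
  refine measurable_const.and ?_
  cases c
  · exact Measurable.exists fun z => meas_Rl ψ z x
  · exact Measurable.exists fun z => meas_Rl ψ x z

theorem meas_code (Φ : F2 L) (x y : ℕ) :
    Measurable (fun k : Code L => code Φ (dat (toI k) (subs Φ) x y)) := by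
  classical
  rw [measurable_pi_iff]
  intro i
  apply measurable_to_bool
  rcases i with u | ⟨n, R, v⟩ | ⟨b, c, ψ⟩
  · have : (fun k : Code L => code Φ (dat (toI k) (subs Φ) x y) (.inl u)) ⁻¹' {true} =
        {k | x = y} := by
      ext k; simp only [code, mem_preimage, mem_singleton_iff, mem_ofPred_eq]
      exact decide_eq_true_iff
    rw [this]
    exact measurableSet_setOfPred.2 measurable_const
  · have : (fun k : Code L => code Φ (dat (toI k) (subs Φ) x y) (.inr (.inl ⟨n, R, v⟩))) ⁻¹'
        {true} = {k | toI k n R (fun j => pick x y (v j))} := by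
      ext k; simp only [code, mem_preimage, mem_singleton_iff, mem_ofPred_eq]
      exact decide_eq_true_iff
    rw [this]
    exact measurableSet_setOfPred.2 (meas_toI R _)
  · have : (fun k : Code L => code Φ (dat (toI k) (subs Φ) x y) (.inr (.inr ⟨b, c, ψ⟩))) ⁻¹'
        {true} = {k | lab (toI k) (subs Φ) (pick x y b) c ψ} := by
      ext k; simp only [code, mem_preimage, mem_singleton_iff, mem_ofPred_eq]
      exact decide_eq_true_iff
    rw [this]
    exact measurableSet_setOfPred.2 (meas_lab _ _ _ _)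

theorem Rl_iso {c c' : Code L} (g : ℕ ≃ ℕ)
    (hg : ∀ n (R : L.Relations n) (t : Fin n → ℕ), c ⟨n, R, t⟩ = c' ⟨n, R, fun k => g (t k)⟩)
    (φ : F2 L) (x y : ℕ) : Rl (toI c) φ x y ↔ Rl (toI c') φ (g x) (g y) := by
  induction φ generalizing x y with
  | eq i j =>
    simp only [Rl]
    cases i <;> cases j <;> simp
  | rel R v =>
    simp only [Rl, toI]
    rw [hg]
    have : (fun k => g (pick x y (v k))) = fun k => pick (g x) (g y) (v k) := by
      funext k; cases v k <;> rfl
    rw [this]
  | neg φ ih => simp only [Rl]; rw [ih]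
  | inf f ih =>
    simp only [Rl]
    exact forall_congr' fun n => ih n x y
  | ex b φ ih =>
    cases b
    · simp only [Rl]
      constructor
      · rintro ⟨z, hz⟩; exact ⟨g z, (ih z y).1 hz⟩
      · rintro ⟨z, hz⟩
        refine ⟨g.symm z, (ih _ y).2 ?_⟩
        rwa [Equiv.apply_symm_apply]
    · simp only [Rl]
      constructor
      · rintro ⟨z, hz⟩; exact ⟨g z, (ih x z).1 hz⟩
      · rintro ⟨z, hz⟩
        refine ⟨g.symm z, (ih x _).2 ?_⟩
        rwa [Equiv.apply_symm_apply]

theorem dat_iso {c c' : Code L} (g : ℕ ≃ ℕ)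
    (hg : ∀ n (R : L.Relations n) (t : Fin n → ℕ), c ⟨n, R, t⟩ = c' ⟨n, R, fun k => g (t k)⟩)
    (J : Set (F2 L)) (x y : ℕ) : dat (toI c) J x y = dat (toI c') J (g x) (g y) := by
  apply Dat.ext'
  · simp [dat, mkd]
  · intro n R v
    exact Rl_iso g hg (.rel R v) x y
  · intro b d ψ
    have h1 : pick (g x) (g y) b = g (pick x y b) := by cases b <;> rfl
    simp only [dat, mkd, h1, lab]
    refine and_congr Iff.rfl ?_
    cases d
    · exact Rl_iso g hg (.ex false ψ) (pick x y b) (pick x y b)
    · exact Rl_iso g hg (.ex true ψ) (pick x y b) (pick x y b)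

/-- Data of an element which may be repeated. -/
def NK (Φ : F2 L) (p : Dat L) : Prop :=
  ∃ s ∈ Al Φ, ¬ s.e ∧ s.map (fun _ => false) = p ∧ s.map (fun _ => true) = p

/-- Determinism of the data between repeatable elements. -/
def Det (Φ : F2 L) : Prop :=
  ∀ I ∈ Md Φ, ∀ a b, NK Φ (dat I (subs Φ) a a) → NK Φ (dat I (subs Φ) b b) →
    ∀ d ∈ Al Φ, ∀ d' ∈ Al Φ, ¬ d.e → ¬ d'.e →
      d.map (fun _ => false) = dat I (subs Φ) a a → d.map (fun _ => true) = dat I (subs Φ) b b →
      d'.map (fun _ => false) = dat I (subs Φ) a a → d'.map (fun _ => true) = dat I (subs Φ) b b →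
      d = d'

theorem perf_of_not_det [∀ n, Countable (L.Relations n)] {Φ : F2 L} (h : ¬ Det Φ) : Perf Φ := by
  unfold Det at h
  push Not at h
  obtain ⟨I, hI, a, b, ⟨s, hs, hse, hs0, hs1⟩, ⟨s', hs', hse', hs0', hs1'⟩, d, hd, d', hd', hde,
    hde', hd0, hd1, hd0', hd1', hne⟩ := h
  have hdiff : ∃ n R v, ¬ (d.a n R v ↔ d'.a n R v) := by
    by_contra hc
    push Not at hc
    apply hne
    apply Dat.ext'
    · exact ⟨fun h => absurd h hde, fun h => absurd h hde'⟩
    · exact hc
    · intro β c ψ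
      have e0 : d.l false = d'.l false := by
        have h1 : (d.map (fun _ => false)).l false = (d'.map (fun _ => false)).l false := by
          rw [hd0, hd0']
        exact h1
      have e1 : d.l true = d'.l true := by
        have h1 : (d.map (fun _ => true)).l false = (d'.map (fun _ => true)).l false := by
          rw [hd1, hd1']
        exact h1
      cases β
      · rw [e0]
      · rw [e1]
  obtain ⟨n, R, v, hv⟩ := hdiff
  by_cases h1 : d.a n R v
  · have h2 : ¬ d'.a n R v := fun h2 => hv ⟨fun _ => h2, fun _ => h1⟩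
    exact Cfg.perf (Φ := Φ)
      { I := I, hI := hI, a := a, b := b
        s := fun β => cond β s' s
        hs := by rintro (_ | _) <;> assumption
        hse := by rintro (_ | _) <;> assumption
        hs0 := by rintro (_ | _) <;> assumption
        hs1 := by rintro (_ | _) <;> assumption
        d := fun β => cond β d d'
        hd := by rintro (_ | _) <;> assumption
        hde := by rintro (_ | _) <;> assumption
        hd0 := by rintro (_ | _) <;> assumption
        hd1 := by rintro (_ | _) <;> assumption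
        n := n, R := R, v := v, hv0 := h2, hv1 := h1 }
  · have h2 : d'.a n R v := by
      by_contra h2
      exact hv ⟨fun h => absurd h h1, fun h => absurd h h2⟩
    exact Cfg.perf (Φ := Φ)
      { I := I, hI := hI, a := a, b := b
        s := fun β => cond β s' s
        hs := by rintro (_ | _) <;> assumption
        hse := by rintro (_ | _) <;> assumption
        hs0 := by rintro (_ | _) <;> assumption
        hs1 := by rintro (_ | _) <;> assumption
        d := fun β => cond β d' d
        hd := by rintro (_ | _) <;> assumption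
        hde := by rintro (_ | _) <;> assumption
        hd0 := by rintro (_ | _) <;> assumption
        hd1 := by rintro (_ | _) <;> assumption
        n := n, R := R, v := v, hv0 := h1, hv1 := h2 }

theorem al_countable [∀ n, Countable (L.Relations n)] {Φ : F2 L} (h : ¬ Perf Φ) :
    (Al Φ).Countable := by
  by_contra hc
  apply h
  refine perf_of_inv (Φ := Φ) (Y := YM Φ) (Z := KI Φ → Bool) (ι := ℕ × ℕ) (fun y => y.1)
    measurable_subtype_coe (fun y => y.2)
    (fun p y => code Φ (dat (toI y.1) (subs Φ) p.1 p.2)) ?_ ?_ ?_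
  · intro p
    exact (meas_code Φ p.1 p.2).comp measurable_subtype_coe
  · rintro y y' ⟨g, hg⟩ p
    exact ⟨(g p.1, g p.2), by simp only [dat_iso g hg]⟩
  · intro hc2
    apply hc
    refine Set.MapsTo.countable_of_injOn (f := code Φ) ?_
      (fun d hd d' hd' h => code_inj hd hd' h) hc2
    rintro d ⟨I, hI, x, y, rfl⟩
    refine mem_iUnion.2 ⟨(x, y), ⟨ofI I, by rw [toI_ofI]; exact hI⟩, ?_⟩
    simp only [toI_ofI]

open Classical in
/-- The profile of an element. -/
noncomputable def Pf (Φ : F2 L) (I : Interp L ℕ) (x : ℕ) : ↥(Al Φ) → Bool := fun d =>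
  decide (dat I (subs Φ) x x = d ∨
    ∃ y, ¬ NK Φ (dat I (subs Φ) y y) ∧ dat I (subs Φ) x y = d)

theorem meas_dat_eq [∀ n, Countable (L.Relations n)] (Φ : F2 L) (x y : ℕ) (d : ↥(Al Φ)) :
    Measurable (fun k : YM Φ => dat (toI k.1) (subs Φ) x y = d) := by
  apply measurableSet_setOfPred.1
  have : {k : YM Φ | dat (toI k.1) (subs Φ) x y = d} =
      (fun k : YM Φ => code Φ (dat (toI k.1) (subs Φ) x y)) ⁻¹' {code Φ d} := by
    ext k
    simp only [mem_ofPred_eq, mem_preimage, mem_singleton_iff]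
    exact ⟨fun h => by rw [h], fun h => code_inj (al_dat k.2 x y) d.2 h⟩
  rw [this]
  exact ((meas_code Φ x y).comp measurable_subtype_coe) (measurableSet_singleton _)

theorem meas_NK [∀ n, Countable (L.Relations n)] {Φ : F2 L} (hA : (Al Φ).Countable) (y : ℕ) :
    Measurable (fun k : YM Φ => ¬ NK Φ (dat (toI k.1) (subs Φ) y y)) := by
  have := hA.to_subtype
  have h : (fun k : YM Φ => ¬ NK Φ (dat (toI k.1) (subs Φ) y y)) =
      fun k : YM Φ => ∃ p : ↥(Al Φ), ¬ NK Φ (p : Dat L) ∧ dat (toI k.1) (subs Φ) y y = p := by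
    funext k
    apply propext
    constructor
    · intro h
      exact ⟨⟨_, al_dat k.2 y y⟩, h, rfl⟩
    · rintro ⟨p, hp, he⟩
      rw [he]; exact hp
  rw [h]
  exact Measurable.exists fun p => measurable_const.and (meas_dat_eq Φ y y p)

theorem meas_Pf [∀ n, Countable (L.Relations n)] {Φ : F2 L} (hA : (Al Φ).Countable) (x : ℕ) :
    Measurable (fun k : YM Φ => Pf Φ (toI k.1) x) := by
  rw [measurable_pi_iff]
  intro d
  apply measurable_to_bool
  have : (fun k : YM Φ => Pf Φ (toI k.1) x d) ⁻¹' {true} =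
      {k : YM Φ | dat (toI k.1) (subs Φ) x x = d ∨
        ∃ y, ¬ NK Φ (dat (toI k.1) (subs Φ) y y) ∧ dat (toI k.1) (subs Φ) x y = d} := by
    ext k; simp [Pf]
  rw [this]
  apply measurableSet_setOfPred.2
  exact (meas_dat_eq Φ x x d).or
    (Measurable.exists fun y => (meas_NK hA y).and (meas_dat_eq Φ x y d))

theorem Pf_iso {c c' : Code L} (g : ℕ ≃ ℕ)
    (hg : ∀ n (R : L.Relations n) (t : Fin n → ℕ), c ⟨n, R, t⟩ = c' ⟨n, R, fun k => g (t k)⟩)
    (Φ : F2 L) (x : ℕ) : Pf Φ (toI c) x = Pf Φ (toI c') (g x) := by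
  funext d
  unfold Pf
  congr 1
  apply propext
  rw [dat_iso g hg]
  refine or_congr Iff.rfl ?_
  constructor
  · rintro ⟨y, h1, h2⟩
    rw [dat_iso g hg] at h1 h2
    exact ⟨g y, h1, h2⟩
  · rintro ⟨y, h1, h2⟩
    refine ⟨g.symm y, ?_, ?_⟩
    · rw [dat_iso g hg, Equiv.apply_symm_apply]; exact h1
    · rw [dat_iso g hg, Equiv.apply_symm_apply]; exact h2

/-- The set of all profiles. -/
def PP (Φ : F2 L) : Set (↥(Al Φ) → Bool) := {π | ∃ I ∈ Md Φ, ∃ x, π = Pf Φ I x}

theorem pp_countable [∀ n, Countable (L.Relations n)] {Φ : F2 L} (h : ¬ Perf Φ) :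
    (PP Φ).Countable := by
  have hA := al_countable h
  have := hA.to_subtype
  by_contra hc
  apply h
  refine perf_of_inv (Φ := Φ) (Y := YM Φ) (Z := ↥(Al Φ) → Bool) (ι := ℕ) (fun y => y.1)
    measurable_subtype_coe (fun y => y.2)
    (fun x y => Pf Φ (toI y.1) x) ?_ ?_ ?_
  · intro x
    exact meas_Pf hA x
  · rintro y y' ⟨g, hg⟩ x
    exact ⟨g x, by simp only [Pf_iso g hg]⟩
  · intro hc2
    apply hc
    refine hc2.mono ?_
    rintro π ⟨I, hI, x, rfl⟩
    refine mem_iUnion.2 ⟨x, ⟨ofI I, by rw [toI_ofI]; exact hI⟩, ?_⟩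
    simp only [toI_ofI]

open Classical in
/-- The multiplicities of the profiles. -/
noncomputable def Mul (Φ : F2 L) (I : Interp L ℕ) : ↥(PP Φ) × ℕ → Bool := fun q =>
  decide (∃ s : Finset ℕ, s.card = q.2 ∧ ∀ x, x ∈ s → Pf Φ I x = q.1)

theorem meas_Mul [∀ n, Countable (L.Relations n)] {Φ : F2 L} (hA : (Al Φ).Countable) :
    Measurable (fun k : YM Φ => Mul Φ (toI k.1)) := by
  have := hA.to_subtype
  rw [measurable_pi_iff]
  intro q
  apply measurable_to_bool
  have : (fun k : YM Φ => Mul Φ (toI k.1) q) ⁻¹' {true} =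
      {k : YM Φ | ∃ s : Finset ℕ, s.card = q.2 ∧ ∀ x, x ∈ s → Pf Φ (toI k.1) x = q.1} := by
    ext k; simp [Mul]
  rw [this]
  apply measurableSet_setOfPred.2
  refine Measurable.exists fun s => measurable_const.and (Measurable.forall fun x =>
    Measurable.imp measurable_const ?_)
  apply measurableSet_setOfPred.1
  exact (meas_Pf hA x) (measurableSet_singleton _)

theorem Mul_iso {c c' : Code L} (g : ℕ ≃ ℕ)
    (hg : ∀ n (R : L.Relations n) (t : Fin n → ℕ), c ⟨n, R, t⟩ = c' ⟨n, R, fun k => g (t k)⟩)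
    (Φ : F2 L) : Mul Φ (toI c) = Mul Φ (toI c') := by
  funext q
  unfold Mul
  congr 1
  apply propext
  constructor
  · rintro ⟨s, hs, hw⟩
    refine ⟨s.map g.toEmbedding, by rw [Finset.card_map, hs], fun w hws => ?_⟩
    rw [Finset.mem_map_equiv] at hws
    have := hw _ hws
    rw [Pf_iso g hg, Equiv.apply_symm_apply] at this
    exact this
  · rintro ⟨s, hs, hw⟩
    refine ⟨s.map g.symm.toEmbedding, by rw [Finset.card_map, hs], fun w hws => ?_⟩
    rw [Finset.mem_map_equiv, Equiv.symm_symm] at hws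
    rw [Pf_iso g hg]
    exact hw _ hws

theorem mul_countable [∀ n, Countable (L.Relations n)] {Φ : F2 L} (h : ¬ Perf Φ) :
    (Set.range (fun k : YM Φ => Mul Φ (toI k.1))).Countable := by
  have hA := al_countable h
  have hP := pp_countable h
  have := hA.to_subtype
  have := hP.to_subtype
  by_contra hc
  apply h
  refine perf_of_inv (Φ := Φ) (Y := YM Φ) (Z := ↥(PP Φ) × ℕ → Bool) (ι := Unit) (fun y => y.1)
    measurable_subtype_coe (fun y => y.2)
    (fun _ y => Mul Φ (toI y.1)) ?_ ?_ ?_
  · intro _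
    exact meas_Mul hA
  · rintro y y' ⟨g, hg⟩ x
    exact ⟨(), by simp only [Mul_iso g hg]⟩
  · intro hc2
    apply hc
    refine hc2.mono ?_
    rintro z ⟨k, rfl⟩
    exact mem_iUnion.2 ⟨(), k, rfl⟩

theorem exists_equiv_of_fin {F F' : Set ℕ}
    (h : ∀ k : ℕ, (∃ s : Finset ℕ, s.card = k ∧ ∀ x, x ∈ s → x ∈ F) ↔
      (∃ s : Finset ℕ, s.card = k ∧ ∀ x, x ∈ s → x ∈ F')) : Nonempty (F ≃ F') := by
  have key : ∀ G : Set ℕ, ∀ k : ℕ, (k : ℕ∞) ≤ G.encard ↔
      ∃ s : Finset ℕ, s.card = k ∧ ∀ x, x ∈ s → x ∈ G := by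
    intro G k
    constructor
    · intro hk
      obtain ⟨t, ht, htk⟩ := Set.exists_subset_encard_eq hk
      have hfin : t.Finite := Set.finite_of_encard_eq_coe htk
      refine ⟨hfin.toFinset, ?_, fun x hx => ht (hfin.mem_toFinset.1 hx)⟩
      rw [hfin.encard_eq_coe_toFinset_card] at htk
      exact_mod_cast htk
    · rintro ⟨s, hs, hsG⟩
      rw [← hs, ← Set.encard_coe_eq_coe_finsetCard]
      exact Set.encard_le_encard (fun x hx => hsG x hx)
  have he : F.encard = F'.encard := by
    apply le_antisymm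
    · rw [← ENat.forall_natCast_le_iff_le]
      intro k hk
      exact (key F' k).2 ((h k).1 ((key F k).1 hk))
    · rw [← ENat.forall_natCast_le_iff_le]
      intro k hk
      exact (key F k).2 ((h k).2 ((key F' k).1 hk))
  by_cases hF : F.Finite
  · have hF' : F'.Finite := by
      rw [← Set.encard_lt_top_iff] at hF ⊢
      rw [← he]; exact hF
    have := hF.fintype
    have := hF'.fintype
    rw [← Fintype.card_eq]
    rw [Set.encard_eq_coe_toFinset_card, Set.encard_eq_coe_toFinset_card] at he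
    rw [← Set.toFinset_card, ← Set.toFinset_card]
    exact_mod_cast he
  · have hF' : ¬ F'.Finite := by
      intro hf
      apply hF
      rw [← Set.encard_lt_top_iff] at hf ⊢
      rw [he]; exact hf
    have h1 : Infinite F := Set.infinite_coe_iff.2 hF
    have h2 : Infinite F' := Set.infinite_coe_iff.2 hF'
    have h3 := nonempty_denumerable F
    have h4 := nonempty_denumerable F'
    obtain ⟨d1⟩ := h3
    obtain ⟨d2⟩ := h4
    exact ⟨(Denumerable.eqv F).trans (Denumerable.eqv F').symm⟩

theorem iso_of_mul {Φ : F2 L} (hdet : Det Φ) (h2 : ∀ n, 2 < n → IsEmpty (L.Relations n))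
    {c c' : Code L} (hc : toI c ∈ Md Φ) (hc' : toI c' ∈ Md Φ)
    (h : Mul Φ (toI c) = Mul Φ (toI c')) : Iso c c' := by
  classical
  have hfib : ∀ π : ↥(Al Φ) → Bool,
      Nonempty ({x // Pf Φ (toI c) x = π} ≃ {x // Pf Φ (toI c') x = π}) := by
    intro π
    by_cases hπ : π ∈ PP Φ
    · refine exists_equiv_of_fin (F := {x | Pf Φ (toI c) x = π})
        (F' := {x | Pf Φ (toI c') x = π}) fun k => ?_
      have := congrFun h (⟨π, hπ⟩, k)
      simpa [Mul] using this
    · have e1 : IsEmpty {x // Pf Φ (toI c) x = π} :=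
        ⟨fun x => hπ ⟨_, hc, x.1, x.2.symm⟩⟩
      have e2 : IsEmpty {x // Pf Φ (toI c') x = π} :=
        ⟨fun x => hπ ⟨_, hc', x.1, x.2.symm⟩⟩
      exact ⟨Equiv.equivOfIsEmpty _ _⟩
  let e : ∀ π : ↥(Al Φ) → Bool, {x // Pf Φ (toI c) x = π} ≃ {x // Pf Φ (toI c') x = π} :=
    fun π => Classical.choice (hfib π)
  let g : ℕ ≃ ℕ := Equiv.ofFiberEquiv e
  have hg : ∀ x, Pf Φ (toI c') (g x) = Pf Φ (toI c) x := fun x => Equiv.ofFiberEquiv_map e x
  have hPf : ∀ (I : Interp L ℕ) (x : ℕ) (d : ↥(Al Φ)), Pf Φ I x d = true ↔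
      (dat I (subs Φ) x x = d ∨
        ∃ y, ¬ NK Φ (dat I (subs Φ) y y) ∧ dat I (subs Φ) x y = d) := by
    intro I x d
    simp [Pf]
  have hdiag : ∀ x, dat (toI c') (subs Φ) (g x) (g x) = dat (toI c) (subs Φ) x x := by
    intro x
    have h1 : Pf Φ (toI c) x ⟨_, al_dat hc x x⟩ = true := (hPf _ _ _).2 (Or.inl rfl)
    rw [← hg, hPf] at h1
    rcases h1 with h1 | ⟨y, -, h1⟩
    · exact h1
    · have h3 : (dat (toI c') (subs Φ) (g x) y).e := by
        rw [h1]; exact rfl
      have h4 : g x = y := h3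
      rw [← h4] at h1
      exact h1
  have hking : ∀ x y, x ≠ y → ¬ NK Φ (dat (toI c) (subs Φ) y y) →
      dat (toI c') (subs Φ) (g x) (g y) = dat (toI c) (subs Φ) x y := by
    intro x y hxy hy
    have h1 : Pf Φ (toI c) x ⟨_, al_dat hc x y⟩ = true := (hPf _ _ _).2 (Or.inr ⟨y, hy, rfl⟩)
    rw [← hg, hPf] at h1
    rcases h1 with h1 | ⟨y', -, h1⟩
    · exfalso
      have h3 : (dat (toI c) (subs Φ) x y).e := by
        have : (dat (toI c') (subs Φ) (g x) (g x)).e := rfl
        rw [h1] at this
        exact this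
      exact hxy h3
    · have h3 : dat (toI c') (subs Φ) y' y' = dat (toI c) (subs Φ) y y := by
        have := congrArg (fun d => Dat.map d (fun _ => true)) h1
        simp only [dat_map, pick_true] at this
        exact this
      have h4 : y' = g y := by
        by_contra hne
        apply hy
        refine ⟨dat (toI c') (subs Φ) y' (g y), al_dat hc' _ _, hne, ?_, ?_⟩
        · rw [dat_map]; exact h3
        · rw [dat_map]; exact hdiag y
      rw [← h4]; exact h1
  have hall : ∀ x y, dat (toI c') (subs Φ) (g x) (g y) = dat (toI c) (subs Φ) x y := by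
    intro x y
    by_cases hxy : x = y
    · subst hxy; exact hdiag x
    · by_cases hy : NK Φ (dat (toI c) (subs Φ) y y)
      · by_cases hx : NK Φ (dat (toI c) (subs Φ) x x)
        · refine hdet (toI c) hc x y hx hy _ (al_dat hc' _ _) _ (al_dat hc _ _) ?_ hxy ?_ ?_ ?_ ?_
          · intro h3
            exact hxy (g.injective h3)
          · rw [dat_map]; exact hdiag x
          · rw [dat_map]; exact hdiag y
          · rw [dat_map]; rfl
          · rw [dat_map]; rfl
        · have h3 := hking y x (Ne.symm hxy) hx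
          have h4 := congrArg (fun d => Dat.map d not) h3
          simp only [dat_map] at h4
          exact h4
      · exact hking x y hxy hy
  refine ⟨g, fun n R t => ?_⟩
  have hrep : ∃ (x y : ℕ) (v : Fin n → Bool), t = fun k => pick x y (v k) := by
    rcases Nat.lt_or_ge 2 n with hn | hn
    · exact (h2 n hn).elim R
    · interval_cases n
      · exact ⟨0, 0, fun _ => false, Subsingleton.elim _ _⟩
      · refine ⟨t 0, t 0, fun _ => false, ?_⟩
        funext k
        rw [Subsingleton.elim k 0]; rfl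
      · refine ⟨t 0, t 1, ![false, true], ?_⟩
        funext k
        fin_cases k <;> rfl
  obtain ⟨x, y, v, rfl⟩ := hrep
  have h3 : (dat (toI c') (subs Φ) (g x) (g y)).a n R v ↔ (dat (toI c) (subs Φ) x y).a n R v := by
    rw [hall]
  have h4 : (fun k => g (pick x y (v k))) = fun k => pick (g x) (g y) (v k) := by
    funext k; cases v k <;> rfl
  rw [h4]
  have h5 : (c' ⟨n, R, fun k => pick (g x) (g y) (v k)⟩ = true) ↔
      (c ⟨n, R, fun k => pick x y (v k)⟩ = true) := h3
  rw [Bool.eq_iff_iff]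
  exact h5.symm

/-- The dichotomy in binary languages. -/
theorem binary_main [∀ n, Countable (L.Relations n)] (Φ : F2 L)
    (h2 : ∀ n, 2 < n → IsEmpty (L.Relations n)) :
    (∃ g : ℕ → Code L, ∀ c, toI c ∈ Md Φ → ∃ n, Iso c (g n)) ∨ Perf Φ := by
  by_cases hP : Perf Φ
  · exact Or.inr hP
  · left
    have hdet : Det Φ := by
      by_contra h
      exact hP (perf_of_not_det h)
    by_cases hne : Nonempty (YM Φ)
    · obtain ⟨f, hf⟩ := (mul_countable hP).exists_eq_range (Set.range_nonempty _)
      have hg : ∀ n, ∃ k : YM Φ, Mul Φ (toI k.1) = f n := by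
        intro n
        have : f n ∈ Set.range (fun k : YM Φ => Mul Φ (toI k.1)) := by
          rw [hf]; exact ⟨n, rfl⟩
        exact this
      choose k hk using hg
      refine ⟨fun n => (k n).1, fun c hc => ?_⟩
      have : Mul Φ (toI c) ∈ Set.range f := by
        rw [← hf]; exact ⟨⟨c, hc⟩, rfl⟩
      obtain ⟨n, hn⟩ := this
      refine ⟨n, iso_of_mul hdet h2 hc (k n).2 ?_⟩
      rw [hk, hn]
    · refine ⟨fun _ => fun _ => false, fun c hc => ?_⟩
      exact absurd ⟨⟨c, hc⟩⟩ hne

end Pool.Agent.H565R2.FO2
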