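import Pool.Agent.H565R2.FO2.Bld

set_option autoImplicit false

/-!
Coding infinite bipartite graphs by copies of two elements.
-/

namespace Pool.Agent.H565R2.FO2

open FirstOrder Set

variable {L : FirstOrder.Language.{0, 0}}

theorem dat_map {M : Type} (I : Interp L M) (J : Set (F2 L)) (x y : M) (σ : Bool → Bool) :
    (dat I J x y).map σ = dat I J (pick x y (σ false)) (pick x y (σ true)) :=
  (mkd_map I (lab I J) x y σ).symm

theorem al_not {Φ : F2 L} {d : Dat L} (hd : d ∈ Al Φ) : d.map not ∈ Al Φ := by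
  obtain ⟨I, hI, x, y, rfl⟩ := hd
  exact ⟨I, hI, y, x, by rw [dat_map]; rfl⟩

theorem al_dat {Φ : F2 L} {I : Interp L ℕ} (hI : I ∈ Md Φ) (x y : ℕ) :
    dat I (subs Φ) x y ∈ Al Φ := ⟨I, hI, x, y, rfl⟩

structure Cfg (Φ : F2 L) where
  I : Interp L ℕ
  hI : I ∈ Md Φ
  a : ℕ
  b : ℕ
  s : Bool → Dat L
  hs : ∀ β, s β ∈ Al Φ
  hse : ∀ β, ¬ (s β).e
  hs0 : ∀ β, (s β).map (fun _ => false) = dat I (subs Φ) (pick a b β) (pick a b β)
  hs1 : ∀ β, (s β).map (fun _ => true) = dat I (subs Φ) (pick a b β) (pick a b β)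
  d : Bool → Dat L
  hd : ∀ β, d β ∈ Al Φ
  hde : ∀ β, ¬ (d β).e
  hd0 : ∀ β, (d β).map (fun _ => false) = dat I (subs Φ) a a
  hd1 : ∀ β, (d β).map (fun _ => true) = dat I (subs Φ) b b
  n : ℕ
  R : L.Relations n
  v : Fin n → Bool
  hv0 : ¬ (d false).a n R v
  hv1 : (d true).a n R v

namespace Cfg

variable {Φ : F2 L} (C : Cfg Φ)

def pr (u : ℕ) : ℕ := if u % 3 = 0 then u / 3 else if u % 3 = 1 then C.a else C.b

def sx (x : ℕ) : Dat L := if x = C.a then C.s false else C.s true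

def hf (γ : ℕ → ℕ → Bool) (u w : ℕ) : Dat L :=
  if u % 3 = 1 ∧ w % 3 = 2 then C.d (γ (u / 3) (w / 3))
  else if u % 3 = 2 ∧ w % 3 = 1 then (C.d (γ (w / 3) (u / 3))).map not
  else if C.pr u = C.pr w then C.sx (C.pr u)
  else dat C.I (subs Φ) (C.pr u) (C.pr w)

def DD (u : ℕ) : Dat L := dat C.I (subs Φ) (C.pr u) (C.pr u)

theorem sx_al {x : ℕ} : C.sx x ∈ Al Φ := by
  unfold sx; split_ifs <;> exact C.hs _

theorem sx_e {x : ℕ} : ¬ (C.sx x).e := by
  unfold sx; split_ifs <;> exact C.hse _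

theorem sx_0 {x : ℕ} (hx : x = C.a ∨ x = C.b) :
    (C.sx x).map (fun _ => false) = dat C.I (subs Φ) x x := by
  unfold sx; split_ifs with h
  · have := C.hs0 false
    rw [h]; exact this
  · have := C.hs0 true
    rcases hx with hx | hx
    · exact absurd hx h
    · rw [hx]; exact this

theorem sx_1 {x : ℕ} (hx : x = C.a ∨ x = C.b) :
    (C.sx x).map (fun _ => true) = dat C.I (subs Φ) x x := by
  unfold sx; split_ifs with h
  · have := C.hs1 false
    rw [h]; exact this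
  · have := C.hs1 true
    rcases hx with hx | hx
    · exact absurd hx h
    · rw [hx]; exact this

theorem pr_ab {u w : ℕ} (huw : u ≠ w) (h : C.pr u = C.pr w) : C.pr u = C.a ∨ C.pr u = C.b := by
  by_cases h0 : u % 3 = 0
  · by_cases h1 : w % 3 = 0
    · exfalso
      simp only [pr, h0, h1, if_true] at h
      omega
    · rw [h]
      unfold pr
      rw [if_neg h1]
      split_ifs
      · exact Or.inl rfl
      · exact Or.inr rfl
  · unfold pr
    rw [if_neg h0]
    split_ifs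
    · exact Or.inl rfl
    · exact Or.inr rfl

theorem pr_1 {u : ℕ} (h : u % 3 = 1) : C.pr u = C.a := by
  unfold pr; rw [if_neg (by omega), if_pos h]

theorem pr_2 {u : ℕ} (h : u % 3 = 2) : C.pr u = C.b := by
  unfold pr; rw [if_neg (by omega), if_neg (by omega)]

theorem pr_3 (z : ℕ) : C.pr (3 * z) = z := by
  unfold pr; rw [if_pos (by omega)]; omega

theorem map_const_not (d : Dat L) (β : Bool) :
    (d.map not).map (fun _ => β) = d.map (fun _ => !β) := by
  rw [Dat.map_map]; rfl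

theorem hf_0 (γ : ℕ → ℕ → Bool) (u w : ℕ) (huw : u ≠ w) :
    (C.hf γ u w).map (fun _ => false) = C.DD u := by
  unfold hf DD
  split_ifs with h1 h2 h3
  · rw [C.hd0, C.pr_1 h1.1]
  · rw [map_const_not, Bool.not_false, C.hd1, C.pr_2 h2.1]
  · exact C.sx_0 (C.pr_ab huw h3)
  · rw [dat_map]; rfl

theorem hf_1 (γ : ℕ → ℕ → Bool) (u w : ℕ) (huw : u ≠ w) :
    (C.hf γ u w).map (fun _ => true) = C.DD w := by
  unfold hf DD
  split_ifs with h1 h2 h3
  · rw [C.hd1, C.pr_2 h1.2]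
  · rw [map_const_not, Bool.not_true, C.hd0, C.pr_1 h2.2]
  · rw [C.sx_1 (C.pr_ab huw h3), h3]
  · rw [dat_map]; rfl

theorem hf_e (γ : ℕ → ℕ → Bool) (u w : ℕ) : ¬ (C.hf γ u w).e := by
  unfold hf
  split_ifs with h1 h2 h3
  · exact C.hde _
  · simp only [Dat.map]
    simp [C.hde]
  · exact C.sx_e
  · exact h3

theorem hf_al (γ : ℕ → ℕ → Bool) (u w : ℕ) : C.hf γ u w ∈ Al Φ := by
  unfold hf
  split_ifs with h1 h2 h3
  · exact C.hd _
  · exact al_not (C.hd _)
  · exact C.sx_al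
  · exact al_dat C.hI _ _

/-- the pair data of the coded model -/
def dl (γ : ℕ → ℕ → Bool) : ℕ → ℕ → Dat L := sym C.DD (C.hf γ)

theorem dl_coh (γ : ℕ → ℕ → Bool) : Coh (C.dl γ) := by
  apply sym_coh
  · intro u σ
    unfold DD; rw [dat_map, pick_self, pick_self]
  · intro u; exact rfl
  · intro u w h; exact C.hf_0 γ u w h.ne
  · intro u w h; exact C.hf_1 γ u w h.ne
  · intro u w _; exact C.hf_e γ u w

theorem dl_al (γ : ℕ → ℕ → Bool) (u w : ℕ) : C.dl γ u w ∈ Al Φ := by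
  unfold dl sym
  split_ifs
  · exact al_dat C.hI _ _
  · exact C.hf_al γ u w
  · exact al_not (C.hf_al γ w u)

theorem dl_diag (γ : ℕ → ℕ → Bool) (u : ℕ) : C.dl γ u u = C.DD u := by
  simp [dl, sym]

theorem dl_base (γ : ℕ → ℕ → Bool) (u z : ℕ) (hz : z ≠ C.pr u) :
    C.dl γ u (3 * z) = dat C.I (subs Φ) (C.pr u) z ∧
    C.dl γ (3 * z) u = dat C.I (subs Φ) z (C.pr u) := by
  have hne : u ≠ 3 * z := by
    rintro rfl
    exact hz (C.pr_3 z).symm
  have h1 : C.hf γ u (3 * z) = dat C.I (subs Φ) (C.pr u) z := by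
    unfold hf
    rw [if_neg (by omega), if_neg (by omega), C.pr_3, if_neg (Ne.symm hz)]
  have h2 : C.hf γ (3 * z) u = dat C.I (subs Φ) z (C.pr u) := by
    unfold hf
    rw [if_neg (by omega), if_neg (by omega), C.pr_3, if_neg hz]
  rcases Nat.lt_or_ge u (3 * z) with h | h
  · constructor
    · simp only [dl, sym, if_neg hne, if_pos h, h1]
    · simp only [dl, sym, if_neg hne.symm, if_neg (by omega : ¬ 3 * z < u), h1]
      rw [dat_map]; rfl
  · constructor
    · simp only [dl, sym, if_neg hne, if_neg (by omega : ¬ u < 3 * z), h2]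
      rw [dat_map]; rfl
    · simp only [dl, sym, if_neg hne.symm, if_pos (by omega : 3 * z < u), h2]

/-- the coded model -/
def Mo (γ : ℕ → ℕ → Bool) : Interp L ℕ := mkI (C.dl γ)

theorem Mo_mem (γ : ℕ → ℕ → Bool) : C.Mo γ ∈ Md Φ := by
  have hlb : ∀ u, (C.dl γ u u).l false = lab C.I (subs Φ) (C.pr u) := by
    intro u
    rw [C.dl_diag]; rfl
  have hc := criterion Φ (C.Mo γ) (fun u => (C.dl γ u u).l false) ?_ ?_
  · exact hc.2
  · intro u w
    rw [Mo, mkd_mkI (C.dl_coh γ)]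
    exact C.dl_al γ u w
  · intro u c ψ h
    rw [Mo]
    simp only [mkd_mkI (C.dl_coh γ)]
    rw [hlb] at h
    obtain ⟨hψ, h⟩ := h
    have hs : subs ψ ⊆ subs Φ := subs_trans hψ
    cases c
    · obtain ⟨z, hz⟩ := h
      by_cases hz2 : z = C.pr u
      · refine ⟨u, ?_⟩
        simp only [cond_false]
        rw [C.dl_diag, DD, ev_dat _ _ _ hs]
        rw [hz2] at hz; exact hz
      · refine ⟨3 * z, ?_⟩
        simp only [cond_false]
        rw [(C.dl_base γ u z hz2).2, ev_dat _ _ _ hs]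
        exact hz
    · obtain ⟨z, hz⟩ := h
      by_cases hz2 : z = C.pr u
      · refine ⟨u, ?_⟩
        simp only [cond_true]
        rw [C.dl_diag, DD, ev_dat _ _ _ hs]
        rw [hz2] at hz; exact hz
      · refine ⟨3 * z, ?_⟩
        simp only [cond_true]
        rw [(C.dl_base γ u z hz2).1, ev_dat _ _ _ hs]
        exact hz

theorem Mo_rho (γ : ℕ → ℕ → Bool) (u w : ℕ) :
    C.Mo γ C.n C.R (fun k => pick u w (C.v k)) ↔ (C.dl γ u w).a C.n C.R C.v :=
  mkI_iff (C.dl_coh γ) C.R u w C.v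

theorem dl_12 (γ : ℕ → ℕ → Bool) {u w : ℕ} (hu : u % 3 = 1) (hw : w % 3 = 2) :
    C.dl γ u w = C.d (γ (u / 3) (w / 3)) := by
  have hne : u ≠ w := by omega
  rcases Nat.lt_or_ge u w with h | h
  · simp only [dl, sym, if_neg hne, if_pos h, hf, hu, hw, and_self, if_true]
  · simp only [dl, sym, if_neg hne, if_neg (by omega : ¬ u < w), hf]
    rw [if_neg (by omega), if_pos ⟨hw, hu⟩, map_not_not]

/-- the coded graph -/
def gm (N : ℕ) (x : ℕ → Bool) (i j : ℕ) : Bool :=
  if i = N then false else if i = N + 1 then true else if i < N then false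
  else if j ≤ N then false else if j = N + 1 then true
  else x (i - N - 2) && decide (j - N - 2 ≤ i - N - 2)

theorem dl_row (γ : ℕ → ℕ → Bool) (N : ℕ) (hN : C.a < N) {w : ℕ} (hw : w % 3 ≠ 2)
    (h0 : w ≠ 3 * N + 1) (h1 : w ≠ 3 * (N + 1) + 1) :
    C.dl γ (3 * N + 1) w = C.dl γ (3 * (N + 1) + 1) w := by
  have p1 : C.pr (3 * N + 1) = C.a := C.pr_1 (by omega)
  have p2 : C.pr (3 * (N + 1) + 1) = C.a := C.pr_1 (by omega)
  by_cases h2 : w % 3 = 1
  · have p3 : C.pr w = C.a := C.pr_1 h2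
    rcases Nat.lt_or_ge w (3 * N + 1) with h | h
    · simp only [dl, sym, if_neg (by omega : ¬ 3 * N + 1 = w), if_neg (by omega : ¬ 3 * N + 1 < w),
        if_neg (by omega : ¬ 3 * (N + 1) + 1 = w), if_neg (by omega : ¬ 3 * (N + 1) + 1 < w), hf]
      simp only [if_neg (by omega : ¬ (w % 3 = 1 ∧ (3 * N + 1) % 3 = 2)),
        if_neg (by omega : ¬ (w % 3 = 2 ∧ (3 * N + 1) % 3 = 1)),
        if_neg (by omega : ¬ (w % 3 = 1 ∧ (3 * (N + 1) + 1) % 3 = 2)),
        if_neg (by omega : ¬ (w % 3 = 2 ∧ (3 * (N + 1) + 1) % 3 = 1)), p1, p2, p3, if_true]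
    · simp only [dl, sym, if_neg (by omega : ¬ 3 * N + 1 = w), if_pos (by omega : 3 * N + 1 < w),
        if_neg (by omega : ¬ 3 * (N + 1) + 1 = w), if_pos (by omega : 3 * (N + 1) + 1 < w), hf]
      simp only [if_neg (by omega : ¬ ((3 * N + 1) % 3 = 1 ∧ w % 3 = 2)),
        if_neg (by omega : ¬ ((3 * N + 1) % 3 = 2 ∧ w % 3 = 1)),
        if_neg (by omega : ¬ ((3 * (N + 1) + 1) % 3 = 1 ∧ w % 3 = 2)),
        if_neg (by omega : ¬ ((3 * (N + 1) + 1) % 3 = 2 ∧ w % 3 = 1)), p1, p2, p3, if_true]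
  · obtain ⟨z, rfl⟩ : ∃ z, w = 3 * z := ⟨w / 3, by omega⟩
    by_cases hz : z = C.a
    · subst hz
      simp only [dl, sym, if_neg (by omega : ¬ 3 * N + 1 = 3 * C.a),
        if_neg (by omega : ¬ 3 * N + 1 < 3 * C.a),
        if_neg (by omega : ¬ 3 * (N + 1) + 1 = 3 * C.a),
        if_neg (by omega : ¬ 3 * (N + 1) + 1 < 3 * C.a), hf]
      simp only [if_neg (by omega : ¬ ((3 * C.a) % 3 = 1 ∧ (3 * N + 1) % 3 = 2)),
        if_neg (by omega : ¬ ((3 * C.a) % 3 = 2 ∧ (3 * N + 1) % 3 = 1)),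
        if_neg (by omega : ¬ ((3 * C.a) % 3 = 1 ∧ (3 * (N + 1) + 1) % 3 = 2)),
        if_neg (by omega : ¬ ((3 * C.a) % 3 = 2 ∧ (3 * (N + 1) + 1) % 3 = 1)), p1, p2, C.pr_3,
        if_true]
    · rw [(C.dl_base γ (3 * N + 1) z (by rw [p1]; exact hz)).1,
        (C.dl_base γ (3 * (N + 1) + 1) z (by rw [p2]; exact hz)).1, p1, p2]

theorem dl_col (γ : ℕ → ℕ → Bool) (N : ℕ) (hN : C.b < N) {w : ℕ} (hw : w % 3 ≠ 1)
    (h0 : w ≠ 3 * N + 2) (h1 : w ≠ 3 * (N + 1) + 2) :
    C.dl γ w (3 * N + 2) = C.dl γ w (3 * (N + 1) + 2) := by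
  have p1 : C.pr (3 * N + 2) = C.b := C.pr_2 (by omega)
  have p2 : C.pr (3 * (N + 1) + 2) = C.b := C.pr_2 (by omega)
  by_cases h2 : w % 3 = 2
  · have p3 : C.pr w = C.b := C.pr_2 h2
    rcases Nat.lt_or_ge w (3 * N + 2) with h | h
    · simp only [dl, sym, if_neg (by omega : ¬ w = 3 * N + 2), if_pos (by omega : w < 3 * N + 2),
        if_neg (by omega : ¬ w = 3 * (N + 1) + 2), if_pos (by omega : w < 3 * (N + 1) + 2), hf]
      simp only [if_neg (by omega : ¬ (w % 3 = 1 ∧ (3 * N + 2) % 3 = 2)),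
        if_neg (by omega : ¬ (w % 3 = 2 ∧ (3 * N + 2) % 3 = 1)),
        if_neg (by omega : ¬ (w % 3 = 1 ∧ (3 * (N + 1) + 2) % 3 = 2)),
        if_neg (by omega : ¬ (w % 3 = 2 ∧ (3 * (N + 1) + 2) % 3 = 1)), p1, p2, p3, if_true]
    · simp only [dl, sym, if_neg (by omega : ¬ w = 3 * N + 2), if_neg (by omega : ¬ w < 3 * N + 2),
        if_neg (by omega : ¬ w = 3 * (N + 1) + 2), if_neg (by omega : ¬ w < 3 * (N + 1) + 2), hf]
      simp only [if_neg (by omega : ¬ ((3 * N + 2) % 3 = 1 ∧ w % 3 = 2)),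
        if_neg (by omega : ¬ ((3 * N + 2) % 3 = 2 ∧ w % 3 = 1)),
        if_neg (by omega : ¬ ((3 * (N + 1) + 2) % 3 = 1 ∧ w % 3 = 2)),
        if_neg (by omega : ¬ ((3 * (N + 1) + 2) % 3 = 2 ∧ w % 3 = 1)), p1, p2, p3, if_true]
  · obtain ⟨z, rfl⟩ : ∃ z, w = 3 * z := ⟨w / 3, by omega⟩
    by_cases hz : z = C.b
    · subst hz
      simp only [dl, sym, if_neg (by omega : ¬ 3 * C.b = 3 * N + 2),
        if_pos (by omega : 3 * C.b < 3 * N + 2),
        if_neg (by omega : ¬ 3 * C.b = 3 * (N + 1) + 2),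
        if_pos (by omega : 3 * C.b < 3 * (N + 1) + 2), hf]
      simp only [if_neg (by omega : ¬ ((3 * C.b) % 3 = 1 ∧ (3 * N + 2) % 3 = 2)),
        if_neg (by omega : ¬ ((3 * C.b) % 3 = 2 ∧ (3 * N + 2) % 3 = 1)),
        if_neg (by omega : ¬ ((3 * C.b) % 3 = 1 ∧ (3 * (N + 1) + 2) % 3 = 2)),
        if_neg (by omega : ¬ ((3 * C.b) % 3 = 2 ∧ (3 * (N + 1) + 2) % 3 = 1)), p1, p2, C.pr_3,
        if_true]
    · rw [(C.dl_base γ (3 * N + 2) z (by rw [p1]; exact hz)).2,
        (C.dl_base γ (3 * (N + 1) + 2) z (by rw [p2]; exact hz)).2, p1, p2]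

/-- the formula used for decoding -/
def Th {L : FirstOrder.Language.{0, 0}} (I : Interp L ℕ) {n : ℕ} (R : L.Relations n)
    (v : Fin n → Bool) (p : Fin 4 → ℕ) (y w : ℕ) : Prop :=
  (w ≠ p 0 ∧ w ≠ p 1 ∧ ¬ I n R (fun k => pick (p 0) w (v k)) ∧
      I n R (fun k => pick (p 1) w (v k))) ∧
    (y ≠ p 2 ∧ y ≠ p 3 ∧ ¬ I n R (fun k => pick y (p 2) (v k)) ∧
      I n R (fun k => pick y (p 3) (v k))) ∧ I n R (fun k => pick y w (v k))

def par (N : ℕ) : Fin 4 → ℕ := ![3 * N + 1, 3 * (N + 1) + 1, 3 * N + 2, 3 * (N + 1) + 2]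

theorem Th_iff (N : ℕ) (ha : C.a < N) (hb : C.b < N) (x : ℕ → Bool) (y w : ℕ) :
    Th (C.Mo (gm N x)) C.R C.v (par N) y w ↔
      ∃ k, y = 3 * (N + 2 + k) + 1 ∧ ∃ l, w = 3 * (N + 1 + l) + 2 ∧
        (l = 0 ∨ (x k = true ∧ l ≤ k + 1)) := by
  have hd : ∀ β, (C.d β).a C.n C.R C.v ↔ β = true := by
    intro β; cases β
    · simp [C.hv0]
    · simp [C.hv1]
  have hrow : (w ≠ 3 * N + 1 ∧ w ≠ 3 * (N + 1) + 1 ∧
      ¬ (C.dl (gm N x) (3 * N + 1) w).a C.n C.R C.v ∧
      (C.dl (gm N x) (3 * (N + 1) + 1) w).a C.n C.R C.v) ↔ w % 3 = 2 := by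
    constructor
    · rintro ⟨h0, h1, h2, h3⟩
      by_contra hw
      rw [C.dl_row _ N ha hw h0 h1] at h2
      exact h2 h3
    · intro hw
      refine ⟨by omega, by omega, ?_, ?_⟩
      · rw [C.dl_12 _ (by omega) hw, hd]
        simp [gm, show (3 * N + 1) / 3 = N by omega]
      · rw [C.dl_12 _ (by omega) hw, hd]
        simp [gm, show (3 * (N + 1) + 1) / 3 = N + 1 by omega]
  have hcol : (y ≠ 3 * N + 2 ∧ y ≠ 3 * (N + 1) + 2 ∧
      ¬ (C.dl (gm N x) y (3 * N + 2)).a C.n C.R C.v ∧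
      (C.dl (gm N x) y (3 * (N + 1) + 2)).a C.n C.R C.v) ↔ ∃ k, y = 3 * (N + 2 + k) + 1 := by
    constructor
    · rintro ⟨h0, h1, h2, h3⟩
      by_cases hy : y % 3 = 1
      · rw [C.dl_12 _ hy (by omega), hd] at h2 h3
        have e1 : (3 * N + 2) / 3 = N := by omega
        have e2 : (3 * (N + 1) + 2) / 3 = N + 1 := by omega
        rw [e1] at h2
        rw [e2] at h3
        refine ⟨y / 3 - (N + 2), ?_⟩
        unfold gm at h2 h3
        by_cases c1 : y / 3 = N
        · simp [c1] at h3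
        · by_cases c2 : y / 3 = N + 1
          · simp [c2] at h2
          · by_cases c3 : y / 3 < N
            · simp [c1, c2, c3] at h3
            · omega
      · exfalso
        rw [C.dl_col _ N hb hy h0 h1] at h2
        exact h2 h3
    · rintro ⟨k, rfl⟩
      refine ⟨by omega, by omega, ?_, ?_⟩
      · rw [C.dl_12 _ (by omega) (by omega), hd]
        have e1 : (3 * N + 2) / 3 = N := by omega
        have e2 : (3 * (N + 2 + k) + 1) / 3 = N + 2 + k := by omega
        rw [e1, e2]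
        unfold gm
        rw [if_neg (by omega), if_neg (by omega), if_neg (by omega), if_pos le_rfl]
        simp
      · rw [C.dl_12 _ (by omega) (by omega), hd]
        have e1 : (3 * (N + 1) + 2) / 3 = N + 1 := by omega
        have e2 : (3 * (N + 2 + k) + 1) / 3 = N + 2 + k := by omega
        rw [e1, e2]
        unfold gm
        rw [if_neg (by omega), if_neg (by omega), if_neg (by omega), if_neg (by omega),
          if_pos rfl]
  have hp0 : par N 0 = 3 * N + 1 := rfl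
  have hp1 : par N 1 = 3 * (N + 1) + 1 := rfl
  have hp2 : par N 2 = 3 * N + 2 := rfl
  have hp3 : par N 3 = 3 * (N + 1) + 2 := rfl
  unfold Th
  rw [hp0, hp1, hp2, hp3]
  simp only [C.Mo_rho]
  rw [hrow, hcol]
  constructor
  · rintro ⟨hw, ⟨k, rfl⟩, h⟩
    refine ⟨k, rfl, ?_⟩
    rw [C.dl_12 _ (by omega) hw, hd] at h
    have e2 : (3 * (N + 2 + k) + 1) / 3 = N + 2 + k := by omega
    rw [e2] at h
    unfold gm at h
    rw [if_neg (by omega), if_neg (by omega), if_neg (by omega)] at h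
    split_ifs at h with c1 c2
    · exact ⟨0, by omega, Or.inl rfl⟩
    · rw [Bool.and_eq_true, decide_eq_true_eq] at h
      have e3 : N + 2 + k - N - 2 = k := by omega
      rw [e3] at h
      exact ⟨w / 3 - (N + 1), by omega, Or.inr ⟨h.1, by omega⟩⟩
  · rintro ⟨k, rfl, l, rfl, h⟩
    refine ⟨by omega, ⟨k, rfl⟩, ?_⟩
    rw [C.dl_12 _ (by omega) (by omega), hd]
    have e2 : (3 * (N + 2 + k) + 1) / 3 = N + 2 + k := by omega
    have e3 : (3 * (N + 1 + l) + 2) / 3 = N + 1 + l := by omega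
    rw [e2, e3]
    unfold gm
    rw [if_neg (by omega), if_neg (by omega), if_neg (by omega), if_neg (by omega)]
    split_ifs with c1
    · rfl
    · rcases h with h | ⟨h1, h2⟩
      · exfalso; omega
      · have e3 : N + 2 + k - N - 2 = k := by omega
        rw [e3, h1, Bool.true_and, decide_eq_true_eq]
        omega

theorem decode (N : ℕ) (ha : C.a < N) (hb : C.b < N) (x : ℕ → Bool) (k : ℕ) :
    (∃ y, ∃ s : Finset ℕ, s.card = k + 2 ∧
      ∀ w, w ∈ s ↔ Th (C.Mo (gm N x)) C.R C.v (par N) y w) ↔ x k = true := by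
  have hinj : Function.Injective (fun l : ℕ => 3 * (N + 1 + l) + 2) := by
    intro l l' h
    simp only at h
    omega
  constructor
  · rintro ⟨y, s, hs, hw⟩
    simp only [C.Th_iff N ha hb] at hw
    have hne : s.Nonempty := by
      rw [← Finset.card_pos]; omega
    obtain ⟨w0, hw0⟩ := hne
    obtain ⟨k', hy, -⟩ := (hw w0).1 hw0
    by_cases hx : x k' = true
    · have : s = (Finset.range (k' + 2)).image (fun l : ℕ => 3 * (N + 1 + l) + 2) := by
        ext w
        rw [hw, Finset.mem_image]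
        constructor
        · rintro ⟨k2, hk2, l, rfl, h⟩
          have : k2 = k' := by omega
          subst this
          refine ⟨l, ?_, rfl⟩
          rw [Finset.mem_range]
          rcases h with h | h
          · omega
          · omega
        · rintro ⟨l, hl, rfl⟩
          rw [Finset.mem_range] at hl
          exact ⟨k', hy, l, rfl, Or.inr ⟨hx, by omega⟩⟩
      rw [this, Finset.card_image_of_injective _ hinj, Finset.card_range] at hs
      have : k = k' := by omega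
      rw [this]; exact hx
    · exfalso
      have : s ⊆ {3 * (N + 1) + 2} := by
        intro w hws
        obtain ⟨k2, hk2, l, rfl, h⟩ := (hw w).1 hws
        have : k2 = k' := by omega
        subst this
        rcases h with h | h
        · subst h; simp
        · exact absurd h.1 hx
      have := Finset.card_le_card this
      rw [Finset.card_singleton] at this
      omega
  · intro hx
    refine ⟨3 * (N + 2 + k) + 1, (Finset.range (k + 2)).image (fun l : ℕ => 3 * (N + 1 + l) + 2),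
      ?_, ?_⟩
    · rw [Finset.card_image_of_injective _ hinj, Finset.card_range]
    · intro w
      rw [C.Th_iff N ha hb, Finset.mem_image]
      constructor
      · rintro ⟨l, hl, rfl⟩
        rw [Finset.mem_range] at hl
        exact ⟨k, rfl, l, rfl, Or.inr ⟨hx, by omega⟩⟩
      · rintro ⟨k2, hk2, l, rfl, h⟩
        have : k2 = k := by omega
        subst this
        refine ⟨l, ?_, rfl⟩
        rw [Finset.mem_range]
        rcases h with h | h
        · omega
        · omega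

end Cfg

end Pool.Agent.H565R2.FO2
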