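import Pool.Agent.H565R2.FO2.Cnt

set_option autoImplicit false

/-!
Relation symbols of arity at least three, and the dichotomy for all relational languages.
-/

namespace Pool.Agent.H565R2.FO2

open FirstOrder Set Topology MeasureTheory

variable {L : FirstOrder.Language.{0, 0}}

theorem Rl_congr {M : Type} {I I' : Interp L M}
    (h : ∀ n (R : L.Relations n) (v : Fin n → Bool) x y,
      I n R (fun k => pick x y (v k)) ↔ I' n R (fun k => pick x y (v k)))
    (φ : F2 L) (x y : M) : Rl I φ x y ↔ Rl I' φ x y := by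
  induction φ generalizing x y with
  | eq i j => exact Iff.rfl
  | rel R v => exact h _ R v x y
  | neg φ ih => simp only [Rl]; rw [ih]
  | inf f ih =>
    simp only [Rl]
    exact forall_congr' fun n => ih n x y
  | ex b φ ih =>
    cases b
    · simp only [Rl]; exact exists_congr fun z => ih z y
    · simp only [Rl]; exact exists_congr fun z => ih x z

/-- The tuple `(u, v, w, w, ...)`. -/
def tri (n : ℕ) (u v w : ℕ) : Fin n → ℕ :=
  fun k => if k.val = 0 then u else if k.val = 1 then v else w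

def hd {n : ℕ} (t : Fin n → ℕ) : ℕ := if h : 0 < n then t ⟨0, h⟩ else 0

def Sp (β : Bool) (n : ℕ) (t : Fin n → ℕ) : Prop :=
  ∃ u w, u + 2 ≤ w ∧ w < u + 2 + (2 * u + 1 + β.toNat) ∧ t = tri n u (u + 1) w

open Classical in
noncomputable def cx (c0 : Code L) (x : ℕ → Bool) : Code L := fun p =>
  if ∃ (u w : ℕ) (v : Fin p.1 → Bool), p.2.2 = fun k => pick u w (v k) then c0 p
  else decide (Sp (x (hd p.2.2)) p.1 p.2.2)

theorem cx_cont (c0 : Code L) : Continuous (cx c0) := by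
  classical
  rw [continuous_pi_iff]
  intro p
  unfold cx
  split_ifs
  · exact continuous_const
  · exact (continuous_of_discreteTopology (f := fun β : Bool => decide (Sp β p.1 p.2.2))).comp
      (continuous_apply (hd p.2.2))

theorem cx_mem {Φ : F2 L} {c0 : Code L} (h : toI c0 ∈ Md Φ) (x : ℕ → Bool) :
    toI (cx c0 x) ∈ Md Φ := by
  intro a b
  rw [Rl_congr (I' := toI c0)]
  · exact h a b
  · intro n R v x' y'
    unfold toI cx
    rw [if_pos ⟨x', y', v, rfl⟩]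

theorem tri_inj {n : ℕ} (hn : 2 < n) {u v w u' v' w' : ℕ} (h : tri n u v w = tri n u' v' w') :
    u = u' ∧ v = v' ∧ w = w' := by
  have h0 := congrFun h ⟨0, by omega⟩
  have h1 := congrFun h ⟨1, by omega⟩
  have h2 := congrFun h ⟨2, by omega⟩
  simp [tri] at h0 h1 h2
  exact ⟨h0, h1, h2⟩

theorem tri_not {n : ℕ} (hn : 2 < n) {u v w : ℕ} (h1 : u ≠ v) (h2 : u ≠ w) (h3 : v ≠ w) :
    ¬ ∃ (a b : ℕ) (s : Fin n → Bool), tri n u v w = fun k => pick a b (s k) := by
  rintro ⟨a, b, s, h⟩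
  have e0 := congrFun h ⟨0, by omega⟩
  have e1 := congrFun h ⟨1, by omega⟩
  have e2 := congrFun h ⟨2, by omega⟩
  simp only [tri, if_true, if_false, one_ne_zero, OfNat.ofNat_ne_zero, OfNat.ofNat_ne_one] at e0 e1 e2
  revert e0 e1 e2
  cases s ⟨0, by omega⟩ <;> cases s ⟨1, by omega⟩ <;> cases s ⟨2, by omega⟩ <;>
    simp only [pick_false, pick_true] <;> intro e0 e1 e2 <;> omega

theorem cx_tri (c0 : Code L) (x : ℕ → Bool) {n : ℕ} (hn : 2 < n) (R : L.Relations n) {u v w : ℕ}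
    (h1 : u ≠ v) (h2 : u ≠ w) (h3 : v ≠ w) :
    cx c0 x ⟨n, R, tri n u v w⟩ = true ↔
      v = u + 1 ∧ u + 2 ≤ w ∧ w < u + 2 + (2 * u + 1 + (x u).toNat) := by
  classical
  unfold cx
  rw [if_neg (tri_not hn h1 h2 h3), decide_eq_true_iff]
  have hh : hd (tri n u v w) = u := by
    unfold hd
    rw [dif_pos (by omega)]
    simp [tri]
  simp only [hh]
  constructor
  · rintro ⟨u', w', h4, h5, h6⟩
    obtain ⟨rfl, rfl, rfl⟩ := tri_inj hn h6
    exact ⟨rfl, h4, h5⟩
  · rintro ⟨rfl, h4, h5⟩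
    exact ⟨u, w, h4, h5, rfl⟩

/-- The invariant for relation symbols of arity at least three. -/
def In3 (c : Code L) {n : ℕ} (R : L.Relations n) (k : ℕ) : Prop :=
  ∃ u, ∃ s : Finset (ℕ × ℕ), s.card = k ∧ ∀ p, p ∈ s ↔
    ((u ≠ p.1 ∧ u ≠ p.2 ∧ p.1 ≠ p.2) ∧ c ⟨n, R, tri n u p.1 p.2⟩ = true)

theorem In3_iso {c c' : Code L} (g : ℕ ≃ ℕ)
    (hg : ∀ n (R : L.Relations n) (t : Fin n → ℕ), c ⟨n, R, t⟩ = c' ⟨n, R, fun k => g (t k)⟩)
    {n : ℕ} (R : L.Relations n) (k : ℕ) (h : In3 c R k) : In3 c' R k := by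
  obtain ⟨u, s, hs, h⟩ := h
  refine ⟨g u, s.map (Equiv.prodCongr g g).toEmbedding, by rw [Finset.card_map, hs], ?_⟩
  rintro ⟨p, q⟩
  rw [Finset.mem_map_equiv, h]
  simp only [Equiv.prodCongr_symm, Equiv.prodCongr_apply, Prod.map_apply]
  rw [hg]
  have e1 : (fun k => g (tri n u (g.symm p) (g.symm q) k)) = tri n (g u) p q := by
    funext k
    unfold tri
    split_ifs <;> simp
  rw [e1]
  have e2 : (u ≠ g.symm p) ↔ (g u ≠ p) := by
    rw [ne_eq, ne_eq, Equiv.eq_symm_apply]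
  have e3 : (u ≠ g.symm q) ↔ (g u ≠ q) := by
    rw [ne_eq, ne_eq, Equiv.eq_symm_apply]
  have e4 : (g.symm p ≠ g.symm q) ↔ (p ≠ q) := by simp
  rw [e2, e3, e4]

theorem In3_cx (c0 : Code L) (x : ℕ → Bool) {n : ℕ} (hn : 2 < n) (R : L.Relations n) (k : ℕ) :
    In3 (cx c0 x) R k ↔ ∃ u, k = 2 * u + 1 + (x u).toNat := by
  have key : ∀ u (p : ℕ × ℕ), ((u ≠ p.1 ∧ u ≠ p.2 ∧ p.1 ≠ p.2) ∧
      cx c0 x ⟨n, R, tri n u p.1 p.2⟩ = true) ↔
      p ∈ (Finset.range (2 * u + 1 + (x u).toNat)).image (fun j => (u + 1, u + 2 + j)) := by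
    rintro u ⟨v, w⟩
    rw [Finset.mem_image]
    constructor
    · rintro ⟨⟨h1, h2, h3⟩, h4⟩
      rw [cx_tri c0 x hn R h1 h2 h3] at h4
      obtain ⟨rfl, h5, h6⟩ := h4
      exact ⟨w - (u + 2), by rw [Finset.mem_range]; omega, by ext <;> simp; omega⟩
    · rintro ⟨j, hj, he⟩
      rw [Finset.mem_range] at hj
      simp only [Prod.mk.injEq] at he
      obtain ⟨rfl, rfl⟩ := he
      simp only
      have h1 : u ≠ u + 1 := by omega
      have h2 : u ≠ u + 2 + j := by omega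
      have h3 : u + 1 ≠ u + 2 + j := by omega
      refine ⟨⟨h1, h2, h3⟩, ?_⟩
      rw [cx_tri c0 x hn R h1 h2 h3]
      exact ⟨rfl, by omega, by omega⟩
  have hinj : ∀ u, Function.Injective (fun j : ℕ => (u + 1, u + 2 + j)) := by
    intro u j j' h
    simp only [Prod.mk.injEq] at h
    omega
  constructor
  · rintro ⟨u, s, hs, h⟩
    simp only [key] at h
    have : s = (Finset.range (2 * u + 1 + (x u).toNat)).image (fun j => (u + 1, u + 2 + j)) := by
      ext p; exact h p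
    rw [this, Finset.card_image_of_injective _ (hinj u), Finset.card_range] at hs
    exact ⟨u, hs.symm⟩
  · rintro ⟨u, rfl⟩
    refine ⟨u, _, ?_, fun p => (key u p).symm⟩
    rw [Finset.card_image_of_injective _ (hinj u), Finset.card_range]

theorem perf_of_ternary {Φ : F2 L} {n : ℕ} (hn : 2 < n) (R : L.Relations n) {c0 : Code L}
    (hc0 : toI c0 ∈ Md Φ) : Perf Φ := by
  refine ⟨cx c0, cx_cont c0, cx_mem hc0, ?_⟩
  have key : ∀ x x' : ℕ → Bool, Iso (cx c0 x) (cx c0 x') → ∀ u, x u = true → x' u = true := by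
    rintro x x' ⟨g, hg⟩ u hu
    have h1 : In3 (cx c0 x) R (2 * u + 2) := by
      rw [In3_cx c0 x hn R]
      exact ⟨u, by rw [hu]; rfl⟩
    have h2 := In3_iso g hg R _ h1
    rw [In3_cx c0 x' hn R] at h2
    obtain ⟨u', hu'⟩ := h2
    cases hx : x' u'
    · rw [hx] at hu'
      simp only [Bool.toNat_false] at hu'
      omega
    · rw [hx] at hu'
      simp only [Bool.toNat_true] at hu'
      have : u = u' := by omega
      rw [this]; exact hx
  have isymm : ∀ c c' : Code L, Iso c c' → Iso c' c := by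
    rintro c c' ⟨g, hg⟩
    refine ⟨g.symm, fun n R t => ?_⟩
    rw [hg]
    simp
  intro x x' h
  funext u
  rw [Bool.eq_iff_iff]
  exact ⟨key x x' h u, key x' x (isymm _ _ h) u⟩

/-- The dichotomy. -/
theorem main [∀ n, Countable (L.Relations n)] (Φ : F2 L) :
    (∃ g : ℕ → Code L, ∀ c, toI c ∈ Md Φ → ∃ n, Iso c (g n)) ∨ Perf Φ := by
  by_cases h2 : ∀ n, 2 < n → IsEmpty (L.Relations n)
  · exact binary_main Φ h2
  · push Not at h2
    obtain ⟨n, hn, ⟨R⟩⟩ := h2
    by_cases hne : ∃ c : Code L, toI c ∈ Md Φ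
    · obtain ⟨c0, hc0⟩ := hne
      exact Or.inr (perf_of_ternary hn R hc0)
    · left
      exact ⟨fun _ _ => false, fun c hc => absurd ⟨c, hc⟩ hne⟩

end Pool.Agent.H565R2.FO2
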