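import Mathlib

set_option autoImplicit false

/-!
A theorem of Mycielski on independent Cantor sets, by the Baire category theorem.
-/

namespace Pool.Agent.H565R2.FO2

open Set TopologicalSpace Filter Topology

theorem finite_choice {G : Type*} [MetricSpace G] [CompleteSpace G] {ι : Type*}
    [Fintype ι] [DecidableEq ι] (W : Set (G × G)) (hWo : IsOpen W) (hWd : Dense W)
    (y0 : ι → G) (ε : ℝ) (hε : 0 < ε) :
    ∃ y : ι → G, (∀ i, dist (y i) (y0 i) < ε) ∧ ∀ i j, i ≠ j → (y i, y j) ∈ W := by
  let D : ι × ι → Set (ι → G) := fun p => {y | p.1 ≠ p.2 → (y p.1, y p.2) ∈ W}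
  have hDo : ∀ p, IsOpen (D p) := by
    intro p
    by_cases hp : p.1 = p.2
    · have : D p = univ := by
        ext y; simp [D, hp]
      rw [this]; exact isOpen_univ
    · have : D p = (fun y : ι → G => (y p.1, y p.2)) ⁻¹' W := by
        ext y; simp [D, hp]
      rw [this]
      exact hWo.preimage ((continuous_apply _).prodMk (continuous_apply _))
  have hDd : ∀ p, Dense (D p) := by
    intro p
    by_cases hp : p.1 = p.2
    · have : D p = univ := by
        ext y; simp [D, hp]
      rw [this]; exact dense_univ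
    · intro y
      rw [Metric.mem_closure_iff]
      intro δ hδ
      obtain ⟨w, hw, hwd⟩ := Metric.mem_closure_iff.1 (hWd (y p.1, y p.2)) δ hδ
      refine ⟨Function.update (Function.update y p.1 w.1) p.2 w.2, ?_, ?_⟩
      · intro _
        rw [Function.update_self, Function.update_of_ne hp, Function.update_self]
        exact hw
      · rw [dist_pi_lt_iff hδ]
        intro i
        rw [Prod.dist_eq, max_lt_iff] at hwd
        by_cases h2 : i = p.2
        · subst h2
          rw [Function.update_self]
          exact hwd.2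
        · rw [Function.update_of_ne h2]
          by_cases h1 : i = p.1
          · subst h1
            rw [Function.update_self]
            exact hwd.1
          · rw [Function.update_of_ne h1, dist_self]
            exact hδ
  have hd := dense_iInter_of_isOpen hDo hDd
  obtain ⟨y, hy1, hy2⟩ := Metric.mem_closure_iff.1 (hd y0) ε hε
  refine ⟨y, fun i => ?_, fun i j hij => mem_iInter.1 hy1 (i, j) hij⟩
  rw [dist_pi_lt_iff hε] at hy2
  rw [dist_comm]
  exact hy2 i

theorem mycielski {G : Type*} [MetricSpace G] [CompleteSpace G] [Nonempty G]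
    (W : ℕ → Set (G × G)) (hWo : ∀ n, IsOpen (W n)) (hWd : ∀ n, Dense (W n)) :
    ∃ h : (ℕ → Bool) → G, Continuous h ∧ ∀ b b', b ≠ b' → ∀ n, (h b, h b') ∈ W n := by
  classical
  let O : ℕ × ℕ → Set C(ℕ → Bool, G) := fun p =>
    {h | ∀ b b' : ℕ → Bool, b p.1 ≠ b' p.1 → (h b, h b') ∈ W p.2}
  have hOo : ∀ p, IsOpen (O p) := by
    intro p
    rw [Metric.isOpen_iff]
    intro h hh
    have hcl : IsClosed {q : (ℕ → Bool) × (ℕ → Bool) | q.1 p.1 ≠ q.2 p.1} := by
      have : {q : (ℕ → Bool) × (ℕ → Bool) | q.1 p.1 ≠ q.2 p.1} =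
          (fun q : (ℕ → Bool) × (ℕ → Bool) => (q.1 p.1, q.2 p.1)) ⁻¹' {r | r.1 ≠ r.2} := by
        ext q; simp
      rw [this]
      exact (isClosed_discrete _).preimage (((continuous_apply _).comp continuous_fst).prodMk
        ((continuous_apply _).comp continuous_snd))
    have hcomp : IsCompact ((fun q : (ℕ → Bool) × (ℕ → Bool) => (h q.1, h q.2)) ''
        {q : (ℕ → Bool) × (ℕ → Bool) | q.1 p.1 ≠ q.2 p.1}) := by
      apply hcl.isCompact.image
      exact ((h.continuous.comp continuous_fst).prodMk (h.continuous.comp continuous_snd))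
    obtain ⟨δ, hδ, hthick⟩ := hcomp.exists_thickening_subset_open (hWo p.2) (by
      rintro _ ⟨q, hq, rfl⟩
      exact hh q.1 q.2 hq)
    refine ⟨δ, hδ, fun g hg b b' hbb => hthick ?_⟩
    rw [Metric.mem_thickening_iff]
    refine ⟨(h b, h b'), ⟨(b, b'), hbb, rfl⟩, ?_⟩
    rw [Metric.mem_ball] at hg
    rw [Prod.dist_eq, max_lt_iff]
    exact ⟨(ContinuousMap.dist_apply_le_dist b).trans_lt hg,
      (ContinuousMap.dist_apply_le_dist b').trans_lt hg⟩
  have hOd : ∀ p, Dense (O p) := by
    intro p h0
    rw [Metric.mem_closure_iff]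
    intro ε hε
    -- modulus of continuity
    have hN : ∃ N : ℕ, ∀ b b' : ℕ → Bool, (∀ i, i < N → b i = b' i) →
        dist (h0 b) (h0 b') < ε / 3 := by
      by_contra hc
      push Not at hc
      choose B B' hB1 hB2 using hc
      obtain ⟨b, _, φ, hφ, hlim⟩ := (isCompact_univ (X := ℕ → Bool)).tendsto_subseq
        (x := B) (fun n => mem_univ _)
      have hlim' : Tendsto (B' ∘ φ) atTop (𝓝 b) := by
        rw [tendsto_pi_nhds] at hlim ⊢
        intro i
        refine (hlim i).congr' ?_
        filter_upwards [eventually_gt_atTop i] with k hk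
        exact hB1 (φ k) i (lt_of_lt_of_le hk (hφ.id_le k))
      have h1 := (h0.continuous.tendsto b).comp hlim
      have h2 := (h0.continuous.tendsto b).comp hlim'
      have h3 := h1.dist h2
      rw [dist_self] at h3
      have h4 := ge_of_tendsto' h3 (fun k => hB2 (φ k))
      linarith
    obtain ⟨N, hN⟩ := hN
    set M := max N (p.1 + 1) with hM
    let rep : (Fin M → Bool) → (ℕ → Bool) := fun s i => if h : i < M then s ⟨i, h⟩ else false
    obtain ⟨y, hy1, hy2⟩ := finite_choice (W p.2) (hWo _) (hWd _) (fun s => h0 (rep s)) (ε / 3)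
      (by linarith)
    let res : (ℕ → Bool) → (Fin M → Bool) := fun b i => b i
    have hres : Continuous res := continuous_pi fun i => continuous_apply _
    refine ⟨⟨fun b => y (res b), (continuous_of_discreteTopology (f := y)).comp hres⟩, ?_, ?_⟩
    · intro b b' hbb
      apply hy2
      intro heq
      apply hbb
      have := congrFun heq ⟨p.1, by omega⟩
      exact this
    · rw [ContinuousMap.dist_lt_iff hε]
      intro b
      have h1 : dist (h0 b) (h0 (rep (res b))) < ε / 3 := by
        apply hN
        intro i hi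
        have : i < M := lt_of_lt_of_le hi (le_max_left _ _)
        simp only [rep, dif_pos this, res]
      have h2 := hy1 (res b)
      calc dist (h0 b) (y (res b)) ≤ dist (h0 b) (h0 (rep (res b))) +
            dist (h0 (rep (res b))) (y (res b)) := dist_triangle _ _ _
        _ < ε / 3 + ε / 3 := by
            rw [dist_comm (h0 (rep (res b))) (y (res b))]
            exact add_lt_add h1 h2
        _ < ε := by linarith
  have hne : Nonempty C(ℕ → Bool, G) := ⟨ContinuousMap.const _ (Classical.arbitrary G)⟩
  have hd := dense_iInter_of_isOpen hOo hOd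
  obtain ⟨h, hh⟩ := hd.nonempty
  refine ⟨h, h.continuous, fun b b' hbb n => ?_⟩
  obtain ⟨i, hi⟩ := Function.ne_iff.1 hbb
  exact mem_iInter.1 hh (i, n) b b' hi

theorem mycielski' {G : Type*} [TopologicalSpace G] [IsCompletelyMetrizableSpace G] [Nonempty G]
    (W : ℕ → Set (G × G)) (hWo : ∀ n, IsOpen (W n)) (hWd : ∀ n, Dense (W n)) :
    ∃ h : (ℕ → Bool) → G, Continuous h ∧ ∀ b b', b ≠ b' → ∀ n, (h b, h b') ∈ W n := by
  let := upgradeIsCompletelyMetrizable G
  exact mycielski W hWo hWd

end Pool.Agent.H565R2.FO2
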