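import Pool.Agent.H565R2.FO2.Cod

set_option autoImplicit false

/-!
Codes of structures, and the perfect set obtained from the coding configuration.
-/

namespace Pool.Agent.H565R2.FO2

open FirstOrder Set Topology MeasureTheory

variable {L : FirstOrder.Language.{0, 0}}

/-- Codes of interpretations on the natural numbers. -/
abbrev Code (L : FirstOrder.Language.{0, 0}) : Type :=
  (Σ n, L.Relations n × (Fin n → ℕ)) → Bool

def toI (c : Code L) : Interp L ℕ := fun n R t => c ⟨n, R, t⟩ = true

open Classical in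
noncomputable def ofI (I : Interp L ℕ) : Code L := fun p => decide (I p.1 p.2.1 p.2.2)

theorem toI_ofI (I : Interp L ℕ) : toI (ofI I) = I := by
  funext n R t
  simp [toI, ofI]

/-- Isomorphism of codes. -/
def Iso (c c' : Code L) : Prop :=
  ∃ g : ℕ ≃ ℕ, ∀ n (R : L.Relations n) (t : Fin n → ℕ), c ⟨n, R, t⟩ = c' ⟨n, R, fun k => g (t k)⟩

/-- Perfectly many models. -/
def Perf (Φ : F2 L) : Prop :=
  ∃ f : (ℕ → Bool) → Code L, Continuous f ∧ (∀ x, toI (f x) ∈ Md Φ) ∧
    ∀ x x', Iso (f x) (f x') → x = x'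

theorem perf_of_inv [∀ n, Countable (L.Relations n)] {Φ : F2 L}
    {Y Z ι : Type} [MeasurableSpace Y] [StandardBorelSpace Y]
    (incl : Y → Code L) (hincl : Measurable incl) (hY : ∀ y, toI (incl y) ∈ Md Φ)
    [TopologicalSpace Z] [T2Space Z] [SecondCountableTopology Z] [MeasurableSpace Z] [BorelSpace Z]
    [Countable ι] (J : ι → Y → Z) (hJ : ∀ i, Measurable (J i))
    (hE : ∀ y y', Iso (incl y) (incl y') → ∀ i, ∃ j, J i y = J j y')
    (hunc : ¬ (⋃ i, Set.range (J i)).Countable) : Perf Φ := by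
  obtain ⟨h, h1, h2⟩ := perfect_of_uncountable incl hincl J hJ
    (fun y y' => Iso (incl y) (incl y')) hE hunc
  refine ⟨incl ∘ h, h1, fun x => hY _, fun x x' hi => ?_⟩
  by_contra hne
  exact h2 x x' hne hi

theorem meas_toI {n : ℕ} (R : L.Relations n) (t : Fin n → ℕ) :
    Measurable (fun c : Code L => toI c n R t) := by
  apply measurableSet_setOfPred.1
  have h := measurable_pi_apply (X := fun _ : (Σ n, L.Relations n × (Fin n → ℕ)) => Bool)
    (⟨n, R, t⟩ : Σ n, L.Relations n × (Fin n → ℕ))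
  exact h (measurableSet_singleton true)

namespace Cfg

theorem meas_Th {n : ℕ} (R : L.Relations n) (v : Fin n → Bool) (p : Fin 4 → ℕ) (y w : ℕ) :
    Measurable (fun c : Code L => Th (toI c) R v p y w) := by
  have h : ∀ u w, Measurable (fun c : Code L => toI c n R (fun k => pick u w (v k))) :=
    fun u w => meas_toI R _
  unfold Th
  exact ((measurable_const.and (measurable_const.and ((h _ _).not.and (h _ _))))).and
    (((measurable_const.and (measurable_const.and ((h _ _).not.and (h _ _))))).and (h _ _))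

open Classical in
/-- The invariant of the coding configuration. -/
noncomputable def Inv {n : ℕ} (R : L.Relations n) (v : Fin n → Bool) (p : Fin 4 → ℕ)
    (c : Code L) : ℕ → Bool := fun k =>
  decide (∃ y, ∃ s : Finset ℕ, s.card = k + 2 ∧ ∀ w, w ∈ s ↔ Th (toI c) R v p y w)

theorem meas_Inv [∀ n, Countable (L.Relations n)] {n : ℕ} (R : L.Relations n)
    (v : Fin n → Bool) (p : Fin 4 → ℕ) :
    Measurable (fun c : Code L => Inv R v p c) := by
  rw [measurable_pi_iff]
  intro k
  apply measurable_to_bool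
  have : (fun c : Code L => Inv R v p c k) ⁻¹' {true} =
      {c | ∃ y, ∃ s : Finset ℕ, s.card = k + 2 ∧ ∀ w, w ∈ s ↔ Th (toI c) R v p y w} := by
    ext c; simp [Inv]
  rw [this]
  apply measurableSet_setOfPred.2
  refine Measurable.exists fun y => Measurable.exists fun s => measurable_const.and ?_
  exact Measurable.forall fun w => measurable_const.iff (meas_Th R v p y w)

theorem Th_iso {c c' : Code L} (g : ℕ ≃ ℕ)
    (hg : ∀ n (R : L.Relations n) (t : Fin n → ℕ), c ⟨n, R, t⟩ = c' ⟨n, R, fun k => g (t k)⟩)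
    {n : ℕ} (R : L.Relations n) (v : Fin n → Bool) (p : Fin 4 → ℕ) (y w : ℕ) :
    Th (toI c) R v p y w ↔ Th (toI c') R v (fun i => g (p i)) (g y) (g w) := by
  have h : ∀ u w, toI c n R (fun k => pick u w (v k)) ↔
      toI c' n R (fun k => pick (g u) (g w) (v k)) := by
    intro u w
    unfold toI
    rw [hg]
    have : (fun k => g (pick u w (v k))) = fun k => pick (g u) (g w) (v k) := by
      funext k; cases v k <;> rfl
    rw [this]
  unfold Th
  simp only [h, ne_eq, EmbeddingLike.apply_eq_iff_eq]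

theorem Inv_iso {c c' : Code L} (g : ℕ ≃ ℕ)
    (hg : ∀ n (R : L.Relations n) (t : Fin n → ℕ), c ⟨n, R, t⟩ = c' ⟨n, R, fun k => g (t k)⟩)
    {n : ℕ} (R : L.Relations n) (v : Fin n → Bool) (p : Fin 4 → ℕ) :
    Inv R v p c = Inv R v (fun i => g (p i)) c' := by
  funext k
  unfold Inv
  congr 1
  apply propext
  constructor
  · rintro ⟨y, s, hs, hw⟩
    refine ⟨g y, s.map g.toEmbedding, by rw [Finset.card_map, hs], fun w => ?_⟩
    rw [Finset.mem_map_equiv, hw, Th_iso g hg]
    simp
  · rintro ⟨y, s, hs, hw⟩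
    refine ⟨g.symm y, s.map g.symm.toEmbedding, by rw [Finset.card_map, hs], fun w => ?_⟩
    rw [Finset.mem_map_equiv, Equiv.symm_symm, hw, Th_iso g hg]
    simp

variable {Φ : F2 L} (C : Cfg Φ)

theorem hf_dep (u w : ℕ) : ∃ (F : Bool → Dat L) (i j : ℕ), ∀ γ, C.hf γ u w = F (γ i j) := by
  unfold hf
  by_cases h1 : u % 3 = 1 ∧ w % 3 = 2
  · exact ⟨C.d, u / 3, w / 3, fun γ => by rw [if_pos h1]⟩
  · by_cases h2 : u % 3 = 2 ∧ w % 3 = 1
    · exact ⟨fun β => (C.d β).map not, w / 3, u / 3, fun γ => by rw [if_neg h1, if_pos h2]⟩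
    · refine ⟨fun _ => if C.pr u = C.pr w then C.sx (C.pr u)
        else dat C.I (subs Φ) (C.pr u) (C.pr w), 0, 0, fun γ => by rw [if_neg h1, if_neg h2]⟩

theorem dl_dep (u w : ℕ) : ∃ (F : Bool → Dat L) (i j : ℕ), ∀ γ, C.dl γ u w = F (γ i j) := by
  unfold dl sym
  by_cases h1 : u = w
  · exact ⟨fun _ => C.DD u, 0, 0, fun γ => by rw [if_pos h1]⟩
  · by_cases h2 : u < w
    · obtain ⟨F, i, j, hF⟩ := C.hf_dep u w
      exact ⟨F, i, j, fun γ => by rw [if_neg h1, if_pos h2, hF]⟩
    · obtain ⟨F, i, j, hF⟩ := C.hf_dep w u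
      exact ⟨fun β => (F β).map not, i, j, fun γ => by rw [if_neg h1, if_neg h2, hF]⟩

theorem gm_cont (N i j : ℕ) : Continuous (fun x : ℕ → Bool => gm N x i j) := by
  unfold gm
  split_ifs
  · exact continuous_const
  · exact continuous_const
  · exact continuous_const
  · exact continuous_const
  · exact continuous_const
  · exact (continuous_of_discreteTopology (f := fun b : Bool => b && decide _)).comp
      (continuous_apply (i - N - 2))

open Classical in
theorem cont_incl (N : ℕ) : Continuous (fun x : ℕ → Bool => ofI (C.Mo (gm N x))) := by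
  rw [continuous_pi_iff]
  rintro ⟨n, R, t⟩
  by_cases hrep : ∃ (u w : ℕ) (v : Fin n → Bool), t = fun k => pick u w (v k)
  · obtain ⟨u, w, v, rfl⟩ := hrep
    obtain ⟨F, i, j, hF⟩ := C.dl_dep u w
    have : (fun x : ℕ → Bool => ofI (C.Mo (gm N x)) ⟨n, R, fun k => pick u w (v k)⟩) =
        (fun β : Bool => decide ((F β).a n R v)) ∘ fun x => gm N x i j := by
      funext x
      simp only [ofI, Function.comp, decide_eq_decide]
      rw [Mo, mkI_iff (C.dl_coh _), hF]
    rw [this]
    exact (continuous_of_discreteTopology).comp (gm_cont N i j)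
  · have : (fun x : ℕ → Bool => ofI (C.Mo (gm N x)) ⟨n, R, t⟩) = fun _ => false := by
      funext x
      simp only [ofI, decide_eq_false_iff_not]
      rintro ⟨u, w, v, ht, -⟩
      exact hrep ⟨u, w, v, ht⟩
    rw [this]
    exact continuous_const

theorem cantor_unc : ¬ (Set.univ : Set (ℕ → Bool)).Countable := by
  intro h
  have h1 := Set.countable_univ_iff.1 h
  obtain ⟨f, hf⟩ := exists_surjective_nat (ℕ → Bool)
  obtain ⟨n, hn⟩ := hf (fun k => !(f k k))
  have := congrFun hn n
  simp at this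

include C in
theorem perf [∀ n, Countable (L.Relations n)] : Perf Φ := by
  classical
  let N := C.a + C.b + 1
  have ha : C.a < N := by omega
  have hb : C.b < N := by omega
  refine perf_of_inv (Φ := Φ) (Y := ℕ → Bool) (Z := ℕ → Bool) (ι := Fin 4 → ℕ)
    (fun x => ofI (C.Mo (gm N x))) (C.cont_incl N).measurable ?_
    (fun p x => Inv C.R C.v p (ofI (C.Mo (gm N x)))) ?_ ?_ ?_
  · intro x
    rw [toI_ofI]; exact C.Mo_mem _
  · intro p
    exact (meas_Inv C.R C.v p).comp (C.cont_incl N).measurable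
  · rintro y y' ⟨g, hg⟩ p
    exact ⟨fun i => g (p i), Inv_iso g hg C.R C.v p⟩
  · intro hc
    have h1 : (Set.univ : Set (ℕ → Bool)).Countable := by
      refine hc.mono ?_
      intro x _
      refine mem_iUnion.2 ⟨par N, x, ?_⟩
      funext k
      simp only [Inv]
      rw [Bool.eq_iff_iff, decide_eq_true_iff, toI_ofI]
      exact C.decode N ha hb x k
    exact cantor_unc h1

end Cfg

end Pool.Agent.H565R2.FO2
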