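import Pool.Agent.H565R2.FO2.USec

set_option autoImplicit false

/-!
Two-variable formulas of the infinitary logic with countable conjunctions, and pair data.
-/

namespace Pool.Agent.H565R2.FO2

open FirstOrder Set

/-- Two-variable formulas of `L_{omega_1 omega}`: the two variables are named `false` and `true`. -/
inductive F2 (L : FirstOrder.Language.{0, 0}) : Type
  | eq : Bool → Bool → F2 L
  | rel : {n : ℕ} → L.Relations n → (Fin n → Bool) → F2 L
  | neg : F2 L → F2 L
  | inf : (ℕ → F2 L) → F2 L
  | ex : Bool → F2 L → F2 L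

variable {L : FirstOrder.Language.{0, 0}}

/-- The value of a variable when `false` has value `x` and `true` has value `y`. -/
def pick {α : Type} (x y : α) (b : Bool) : α := cond b y x

@[simp] theorem pick_false {α : Type} (x y : α) : pick x y false = x := rfl
@[simp] theorem pick_true {α : Type} (x y : α) : pick x y true = y := rfl
@[simp] theorem pick_self {α : Type} (x : α) (b : Bool) : pick x x b = x := by cases b <;> rfl

theorem pick_pick {α : Type} (x y : α) (σ : Bool → Bool) (b : Bool) :
    pick (pick x y (σ false)) (pick x y (σ true)) b = pick x y (σ b) := by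
  cases b <;> rfl

/-- Interpretations of the relation symbols on a set. -/
abbrev Interp (L : FirstOrder.Language.{0, 0}) (M : Type) : Type :=
  ∀ n, L.Relations n → (Fin n → M) → Prop

/-- Satisfaction of a two-variable formula. -/
def Rl {M : Type} (I : Interp L M) : F2 L → M → M → Prop
  | .eq i j, x, y => pick x y i = pick x y j
  | @F2.rel _ n R v, x, y => I n R (fun k => pick x y (v k))
  | .neg φ, x, y => ¬ Rl I φ x y
  | .inf f, x, y => ∀ n, Rl I (f n) x y
  | .ex false φ, _, y => ∃ z, Rl I φ z y
  | .ex true φ, x, _ => ∃ z, Rl I φ x z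

/-- Subformulas. -/
def subs : F2 L → Set (F2 L)
  | .eq i j => {.eq i j}
  | .rel R v => {.rel R v}
  | .neg φ => insert (.neg φ) (subs φ)
  | .inf f => insert (.inf f) (⋃ n, subs (f n))
  | .ex b φ => insert (.ex b φ) (subs φ)

theorem mem_subs (φ : F2 L) : φ ∈ subs φ := by
  cases φ <;> simp [subs]

theorem subs_countable (φ : F2 L) : (subs φ).Countable := by
  induction φ with
  | eq i j => exact countable_singleton _
  | rel R v => exact countable_singleton _
  | neg φ ih => exact ih.insert _
  | inf f ih => exact (countable_iUnion ih).insert _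
  | ex b φ ih => exact ih.insert _

theorem subs_trans {φ ψ : F2 L} (h : ψ ∈ subs φ) : subs ψ ⊆ subs φ := by
  induction φ with
  | eq i j => rw [subs, mem_singleton_iff] at h; rw [h]
  | rel R v => rw [subs, mem_singleton_iff] at h; rw [h]
  | neg φ ih =>
    rcases h with h | h
    · rw [h]
    · exact (ih h).trans (subset_insert _ _)
  | inf f ih =>
    rcases h with h | h
    · rw [h]
    · obtain ⟨n, hn⟩ := mem_iUnion.1 h
      exact (ih n hn).trans ((subset_iUnion (fun n => subs (f n)) n).trans (subset_insert _ _))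
  | ex b φ ih =>
    rcases h with h | h
    · rw [h]
    · exact (ih h).trans (subset_insert _ _)

/-- Data of a pair of elements. -/
structure Dat (L : FirstOrder.Language.{0, 0}) where
  e : Prop
  a : Interp L Bool
  l : Bool → Bool → F2 L → Prop

theorem Dat.ext' {d d' : Dat L} (h1 : d.e ↔ d'.e) (h2 : ∀ n R v, d.a n R v ↔ d'.a n R v)
    (h3 : ∀ b c ψ, d.l b c ψ ↔ d'.l b c ψ) : d = d' := by
  cases d; cases d'
  simp only [Dat.mk.injEq]
  exact ⟨propext h1, by funext n R v; exact propext (h2 n R v),
    by funext b c ψ; exact propext (h3 b c ψ)⟩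

/-- The label of an element. -/
def lab {M : Type} (I : Interp L M) (J : Set (F2 L)) (x : M) : Bool → F2 L → Prop :=
  fun c ψ => ψ ∈ J ∧ cond c (∃ z, Rl I ψ x z) (∃ z, Rl I ψ z x)

/-- Data of a pair, from an interpretation and labels. -/
def mkd {M : Type} (I : Interp L M) (lb : M → Bool → F2 L → Prop) (x y : M) : Dat L :=
  ⟨x = y, fun n R v => I n R (fun k => pick x y (v k)), fun b => lb (pick x y b)⟩

/-- The data of a pair in an interpretation. -/
def dat {M : Type} (I : Interp L M) (J : Set (F2 L)) (x y : M) : Dat L := mkd I (lab I J) x y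

/-- Substitution of variables in data. -/
def Dat.map (d : Dat L) (σ : Bool → Bool) : Dat L :=
  ⟨σ false = σ true ∨ d.e, fun n R v => d.a n R (fun k => σ (v k)), fun b => d.l (σ b)⟩

theorem mkd_map {M : Type} (I : Interp L M) (lb : M → Bool → F2 L → Prop) (x y : M)
    (σ : Bool → Bool) :
    mkd I lb (pick x y (σ false)) (pick x y (σ true)) = (mkd I lb x y).map σ := by
  apply Dat.ext'
  · simp only [mkd, Dat.map]
    cases h1 : σ false <;> cases h2 : σ true <;> simp [pick, eq_comm]
  · intro n R v
    simp only [mkd, Dat.map, pick_pick]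
  · intro b c ψ
    simp only [mkd, Dat.map, pick_pick]

theorem Dat.map_id (d : Dat L) : d.map id = d := by
  apply Dat.ext' <;> simp [Dat.map]

theorem Dat.map_map (d : Dat L) (σ τ : Bool → Bool) :
    (d.map σ).map τ = d.map (σ ∘ τ) := by
  apply Dat.ext'
  · simp only [Dat.map, Function.comp]
    cases h1 : τ false <;> cases h2 : τ true <;> simp [eq_comm]
  · intro n R v; rfl
  · intro b c ψ; rfl

/-- Evaluation of a formula on data. -/
def ev : F2 L → Dat L → Prop
  | .eq i j, d => i = j ∨ d.e
  | @F2.rel _ n R v, d => d.a n R v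
  | .neg φ, d => ¬ ev φ d
  | .inf f, d => ∀ n, ev (f n) d
  | .ex false φ, d => d.l true false φ
  | .ex true φ, d => d.l false true φ

theorem ev_dat {M : Type} (I : Interp L M) (J : Set (F2 L)) (φ : F2 L) (hJ : subs φ ⊆ J)
    (x y : M) : ev φ (dat I J x y) ↔ Rl I φ x y := by
  induction φ generalizing x y with
  | eq i j =>
    simp only [ev, Rl, dat, mkd]
    cases i <;> cases j <;> simp [pick, eq_comm]
  | rel R v => rfl
  | neg φ ih =>
    simp only [ev, Rl]
    rw [ih ((subset_insert _ _).trans hJ)]
  | inf f ih =>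
    simp only [ev, Rl]
    refine forall_congr' fun n => ih n ?_ x y
    exact (subset_iUnion (fun n => subs (f n)) n).trans ((subset_insert _ _).trans hJ)
  | ex b φ ih =>
    have hφ : φ ∈ J := hJ (mem_insert_of_mem _ (mem_subs φ))
    cases b
    · simp only [ev, Rl, dat, mkd, lab, pick_true, cond_false]
      exact ⟨fun h => h.2, fun h => ⟨hφ, h⟩⟩
    · simp only [ev, Rl, dat, mkd, lab, pick_false, cond_true]
      exact ⟨fun h => h.2, fun h => ⟨hφ, h⟩⟩

/-- Interpretations on the natural numbers in which the universal closure of `Φ` holds. -/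
def Md (Φ : F2 L) : Set (Interp L ℕ) := {I | ∀ x y, Rl I Φ x y}

/-- Data realised in models. -/
def Al (Φ : F2 L) : Set (Dat L) := {d | ∃ I ∈ Md Φ, ∃ x y, d = dat I (subs Φ) x y}

theorem mkd_l {M : Type} (I : Interp L M) (lb : M → Bool → F2 L → Prop) (x y : M) (b : Bool) :
    (mkd I lb x y).l b = lb (pick x y b) := rfl

/-- Criterion for a labelled interpretation to be a model. -/
theorem criterion (Φ : F2 L) {W : Type} (I : Interp L W) (lb : W → Bool → F2 L → Prop)
    (hA : ∀ u w, mkd I lb u w ∈ Al Φ)
    (hB : ∀ u c ψ, lb u c ψ → ∃ w, ev ψ (cond c (mkd I lb u w) (mkd I lb w u))) :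
    lab I (subs Φ) = lb ∧ ∀ u w, Rl I Φ u w := by
  have hJ : ∀ u c ψ, lb u c ψ → ψ ∈ subs Φ := by
    intro u c ψ h
    obtain ⟨I', -, x, y, hd⟩ := hA u u
    have : (mkd I lb u u).l false c ψ := h
    rw [hd] at this
    exact this.1
  have hl : ∀ ψ, subs ψ ⊆ subs Φ → ∀ u w, ev ψ (mkd I lb u w) →
      lb u true ψ ∧ lb w false ψ := by
    intro ψ hψ u w h
    have hmem : ψ ∈ subs Φ := hψ (mem_subs ψ)
    obtain ⟨I', -, x, y, hd⟩ := hA u w
    rw [hd, ev_dat _ _ _ hψ] at h
    have h1 : (dat I' (subs Φ) x y).l false true ψ := ⟨hmem, y, h⟩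
    have h2 : (dat I' (subs Φ) x y).l true false ψ := ⟨hmem, x, h⟩
    rw [← hd] at h1 h2
    exact ⟨h1, h2⟩
  have key : ∀ ψ, subs ψ ⊆ subs Φ → ∀ u w, (ev ψ (mkd I lb u w) ↔ Rl I ψ u w) := by
    intro ψ
    induction ψ with
    | eq i j =>
      intro _ u w
      simp only [ev, Rl, mkd]
      cases i <;> cases j <;> simp [pick, eq_comm]
    | rel R v => intro _ u w; rfl
    | neg φ ih =>
      intro h u w
      simp only [ev, Rl]
      rw [ih ((subset_insert _ _).trans h)]
    | inf f ih =>
      intro h u w
      simp only [ev, Rl]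
      refine forall_congr' fun n => ih n ?_ u w
      exact (subset_iUnion (fun n => subs (f n)) n).trans ((subset_insert _ _).trans h)
    | ex b φ ih =>
      intro h u w
      have hφ : subs φ ⊆ subs Φ := (subset_insert _ _).trans h
      cases b
      · simp only [ev, Rl, mkd_l, pick_true]
        constructor
        · intro h1
          obtain ⟨z, hz⟩ := hB w false φ h1
          exact ⟨z, (ih hφ z w).1 hz⟩
        · rintro ⟨z, hz⟩
          exact (hl φ hφ z w ((ih hφ z w).2 hz)).2
      · simp only [ev, Rl, mkd_l, pick_false]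
        constructor
        · intro h1
          obtain ⟨z, hz⟩ := hB u true φ h1
          exact ⟨z, (ih hφ u z).1 hz⟩
        · rintro ⟨z, hz⟩
          exact (hl φ hφ u z ((ih hφ u z).2 hz)).1
  refine ⟨?_, ?_⟩
  · funext u c ψ
    apply propext
    constructor
    · rintro ⟨hψ, h⟩
      have hs : subs ψ ⊆ subs Φ := subs_trans hψ
      cases c
      · obtain ⟨z, hz⟩ := h
        exact (hl ψ hs z u ((key ψ hs z u).2 hz)).2
      · obtain ⟨z, hz⟩ := h
        exact (hl ψ hs u z ((key ψ hs u z).2 hz)).1
    · intro h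
      have hψ := hJ u c ψ h
      have hs : subs ψ ⊆ subs Φ := subs_trans hψ
      refine ⟨hψ, ?_⟩
      cases c
      · obtain ⟨z, hz⟩ := hB u false ψ h
        exact ⟨z, (key ψ hs z u).1 hz⟩
      · obtain ⟨z, hz⟩ := hB u true ψ h
        exact ⟨z, (key ψ hs u z).1 hz⟩
  · intro u w
    rw [← key Φ subset_rfl]
    obtain ⟨I', hI', x, y, hd⟩ := hA u w
    rw [hd, ev_dat _ _ _ subset_rfl]
    exact hI' x y

end Pool.Agent.H565R2.FO2
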